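import Mathlib
import Pool.Agent.Lib.MP_d57abb_nt.GA.TA.Defs3
import Pool.Agent.Lib.MP_d57abb_nt.GA.TA.NQ

/-!
# Stream MS (the model is small): definitions

Input: the theorem of Matomaki-Radziwill type in thin sectors (`MRp z`), output: `model_small` of `TA/MSt.lean`.
Never use the tactics `convert`, `congr!` in this stream.
-/

namespace Pool.Agent.Lib.MP_d57abb_nt.GA.MS

variable [Pool.Agent.Lib.MP_d57abb_nt.GA.TA.Lab]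

open Finset Pool.Agent.Lib.MP_d57abb_nt
open Pool.Agent.Lib.MP_d57abb_nt.GA.TA (ll aa mu1 Wps)

noncomputable section

open Classical in
/-- the primitive vectors of the quadrant of norm at most `X` -/
def VV (X : ℝ) : Finset (ℤ × ℤ) :=
  ((Icc (1 : ℤ) ⌊X⌋) ×ˢ (Icc (0 : ℤ) ⌊X⌋)).filter (fun v => IsCoprime v.1 v.2 ∧ (nm v : ℝ) ≤ X)

open Classical in
/-- those with angle in `[θ, θ + h)` -/
def wn (X θ h : ℝ) : Finset (ℤ × ℤ) := (VV X).filter (fun v => θ ≤ an v ∧ an v < θ + h)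

/-- the class modulo `W` -/
def cls (W : ℕ) (v : ℤ × ℤ) : ℤ × ℤ := (v.1 % (W : ℤ), v.2 % (W : ℤ))

/-- the sum of `z ^ Ω (nm v)` over a sector and a residue class -/
def TX (z : ℂ) (X θ h : ℝ) (W : ℕ) (c : ℤ × ℤ) : ℂ :=
  ∑ v ∈ (wn X θ h).filter (fun v => cls W v = c), aa z v

/-- the theorem of Matomaki-Radziwill type for `z ^ Ω (nm v)` in sectors (stream MR) -/
def MRp (z : ℂ) : Prop :=
  ∀ W : ℕ, 0 < W → ∀ ε : ℝ, 0 < ε → ∃ A₀ : ℝ, ∀ A : ℝ, A₀ ≤ A → ∃ X₀ : ℝ, ∀ X : ℝ, X₀ ≤ X → ∀ c : ℤ × ℤ,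
    ∫ θ in (0 : ℝ)..(2 * Real.log al), ‖TX z X θ (A / X) W c‖ ^ 2 ≤ ε * A ^ 2

/-- the hypotheses on `z`: the theorem of Matomaki-Radziwill type, and the square of the value is constant on each of the sets
of primes -/
structure Ok (z : ℂ) : Prop where
  mr : MRp z
  cst : ∀ P : ℕ, ∃ γ : ℂ, ‖γ‖ = 1 ∧ ∀ p ∈ TA.PS P, (z ^ TA.Lab.h p) ^ 2 = γ

/-- `ll v = √(nm v) * kap (an v)` -/
def kap (θ : ℝ) : ℝ := ((1 - be) * Real.exp (θ / 2) + (al - 1) * Real.exp (-(θ / 2))) / √5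

/-- the condition on the classes of `v`, `w` modulo `W` that the determinant is `b` modulo `W` -/
def chi (W b : ℕ) (c c' : ℤ × ℤ) : Prop := (c.1 * c'.2 - c'.1 * c.2) % (W : ℤ) = (b : ℤ)

/-- the data: multiplier `gm` (a Lipschitz function, applied to `mu1 v`), weight `Wh` with bounds, root of unity `z`, modulus `W`, number `n` of size classes per unit, number `b` of windows
(`h = P / (b Y²)`), size `P` of the determinants, size `Y` of the vectors -/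
structure Dt where
  gm : ℝ → ℝ
  Wh : ℝ → ℝ → ℝ
  k : ℕ
  B : ℝ
  L : ℝ
  z : ℂ
  W : ℕ
  n : ℕ
  b : ℕ
  P : ℕ
  Y : ℝ
  B1 : 1 ≤ B
  L0 : 0 ≤ L
  hz : ‖z‖ = 1
  W0 : 0 < W
  bb : ℕ
  lo : ℕ
  hi : ℕ
  hlo : P / 2 ≤ lo
  hhi : hi ≤ P
  g0 : ∀ x, 0 ≤ gm x
  g1 : ∀ x, gm x ≤ 1
  wB : ∀ x y, |Wh x y| ≤ B
  wG : ∀ x y s t, |gm s - gm t| * |Wh x y| ≤ B * |s - t|
  wL : ∀ x y x' y', |Wh x y - Wh x' y'| ≤ L * (|x - x'| + |y - y'|)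
  wS : ∀ x y, Wh x y ≠ 0 → (1 / 2 ≤ x ∧ x ≤ 2) ∧ (1 / 2 ^ (k + 1) ≤ y ∧ y ≤ 2 ^ (k + 1))
  hn : 2 ^ (2 * k + 13) ≤ n
  hb : 2 ^ (2 * k + 13) ≤ b
  hP : 8 ≤ P
  hY : (2 : ℝ) ^ (5 * k + 30) * n * b * (P : ℝ) ^ 3 ≤ Y

namespace Dt

variable (d : Dt)

/-- the maximal size -/
def S : ℝ := 2 ^ (d.k + 2)
/-- the number of size classes -/
def R : ℕ := 2 ^ (d.k + 2) * d.n
/-- the number of shifts of the window -/
def Lm : ℕ := 2 ^ (d.k + 5) * d.b + 2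
/-- the length of the window -/
def h : ℝ := (d.P : ℝ) / (d.b * d.Y ^ 2)
/-- the vectors -/
def VS : Finset (ℤ × ℤ) := VV ((d.S * d.Y) ^ 2)
/-- the vectors in the window -/
def wd (θ : ℝ) : Finset (ℤ × ℤ) := wn ((d.S * d.Y) ^ 2) θ d.h
/-- the size class -/
def rr (v : ℤ × ℤ) : ℕ := ⌈(d.n : ℝ) * √(nm v : ℝ) / d.Y⌉₊
/-- the residue classes -/
def cs : Finset (ℤ × ℤ) := (Ico (0 : ℤ) d.W) ×ˢ (Ico (0 : ℤ) d.W)
/-- the weight of a pair -/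
def G (x : (ℤ × ℤ) × (ℤ × ℤ)) : ℝ := d.gm (mu1 x.1) * d.Wh (ll x.1 / d.Y) (ll x.2 / d.Y)
/-- the approximate weight -/
def g (θ : ℝ) (r r' : ℕ) : ℝ := d.gm (kap θ ^ 2) * d.Wh ((r : ℝ) / d.n * kap θ) ((r' : ℝ) / d.n * kap θ)
/-- the approximate determinant -/
def D (r r' l : ℕ) : ℝ := ((r : ℝ) * r' / (d.n : ℝ) ^ 2) * l * ((d.P : ℝ) / d.b) / √5
/-- the error of the determinant -/
def Del : ℝ := 2 ^ (2 * d.k + 10) * ((d.P : ℝ) / d.n + (d.P : ℝ) / d.b) + 1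

open Classical in
/-- the summand -/
def K (x : (ℤ × ℤ) × (ℤ × ℤ)) : ℂ :=
  if 0 < dt x.1 x.2 ∧ (dt x.1 x.2).toNat ∈ TA.NC d.W d.bb d.lo d.hi then
    ((d.G x / d.Y ^ 2 : ℝ) : ℂ) * aa d.z x.1 * aa d.z x.2 else 0

open Classical in
/-- the approximate summand -/
def Kt (θ : ℝ) (l : ℕ) (x : (ℤ × ℤ) × (ℤ × ℤ)) : ℂ :=
  if ((d.lo : ℝ) < d.D (d.rr x.1) (d.rr x.2) l ∧ d.D (d.rr x.1) (d.rr x.2) l ≤ d.hi) ∧
      chi d.W d.bb (cls d.W x.1) (cls d.W x.2) then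
    ((d.g θ (d.rr x.1) (d.rr x.2) / d.Y ^ 2 : ℝ) : ℂ) * aa d.z x.1 * aa d.z x.2 else 0

/-- the range of the sizes -/
def Om (x : (ℤ × ℤ) × (ℤ × ℤ)) : Prop :=
  d.Y / 4 ≤ (ll x.1 : ℝ) ∧ (ll x.1 : ℝ) ≤ 4 * d.Y ∧ (ll x.2 : ℝ) ≤ 2 ^ (d.k + 2) * d.Y

open Classical in
/-- the error -/
def er (x : (ℤ × ℤ) × (ℤ × ℤ)) : ℝ :=
  (if d.Om x ∧ 0 < dt x.1 x.2 ∧ dt x.1 x.2 ≤ (d.P : ℤ) then 2 ^ (d.k + 4) * (d.B + d.L) / (d.n * d.Y ^ 2) else 0) +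
  (if d.Om x ∧ 0 < dt x.1 x.2 ∧ (|(dt x.1 x.2 : ℝ) - d.lo| ≤ d.Del ∨ |(dt x.1 x.2 : ℝ) - d.hi| ≤ d.Del) then
    2 * d.B / d.Y ^ 2 else 0)

/-- the sum over a window, a size class and a residue class -/
def U (θ : ℝ) (r : ℕ) (c : ℤ × ℤ) : ℂ :=
  ∑ v ∈ (d.wd θ).filter (fun v => d.rr v = r ∧ cls d.W v = c), aa d.z v

/-- the total of the squares -/
def Vt (θ : ℝ) : ℝ := ∑ r ∈ Icc 1 d.R, ∑ c ∈ d.cs, ‖d.U θ r c‖ ^ 2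

/-- the norm bound of class `r` -/
def Xr (r : ℕ) : ℝ := ((r : ℝ) * d.Y / d.n) ^ 2

/-- the bound for the integral of `Vt` -/
def Mt (ε : ℝ) : ℝ := (d.R : ℝ) * (d.W : ℝ) ^ 2 * (4 * (ε * ((d.P : ℝ) * d.S ^ 2 / d.b) ^ 2 +
  d.h * ((d.P : ℝ) * d.S ^ 2 / d.b + 1) ^ 2))

end Dt

theorem mem_VV {X : ℝ} {v : ℤ × ℤ} : v ∈ VV X ↔
    ((1 ≤ v.1 ∧ v.1 ≤ ⌊X⌋) ∧ (0 ≤ v.2 ∧ v.2 ≤ ⌊X⌋)) ∧ IsCoprime v.1 v.2 ∧ (nm v : ℝ) ≤ X := by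
  unfold VV
  rw [Finset.mem_filter, Finset.mem_product, Finset.mem_Icc, Finset.mem_Icc]

theorem mem_wn {X θ h : ℝ} {v : ℤ × ℤ} : v ∈ wn X θ h ↔ v ∈ VV X ∧ θ ≤ an v ∧ an v < θ + h := by
  unfold wn
  rw [Finset.mem_filter]

theorem Dt.n_pos (d : Dt) : 0 < d.n := lt_of_lt_of_le (by positivity) d.hn

theorem Dt.b_pos (d : Dt) : 0 < d.b := lt_of_lt_of_le (by positivity) d.hb

theorem Dt.Y_ge (d : Dt) : (2 : ℝ) ^ (5 * d.k + 30) ≤ d.Y := by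
  refine le_trans ?_ d.hY
  have h1 : (1 : ℝ) ≤ d.n := by exact_mod_cast d.n_pos
  have h2 : (1 : ℝ) ≤ d.b := by exact_mod_cast d.b_pos
  have h3 : (1 : ℝ) ≤ (d.P : ℝ) ^ 3 := by
    have h4 : (1 : ℝ) ≤ d.P := by
      have := d.hP
      exact_mod_cast (by omega : 1 ≤ d.P)
    exact one_le_pow₀ h4
  have h5 : (0 : ℝ) < (2 : ℝ) ^ (5 * d.k + 30) := by positivity
  calc (2 : ℝ) ^ (5 * d.k + 30) = (2 : ℝ) ^ (5 * d.k + 30) * 1 * 1 * 1 := by ring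
    _ ≤ _ := by gcongr

theorem Dt.Y_pos (d : Dt) : 0 < d.Y := lt_of_lt_of_le (by positivity) d.Y_ge

theorem Dt.h_pos (d : Dt) : 0 < d.h := by
  unfold Dt.h
  have h1 : (0 : ℝ) < d.b := by exact_mod_cast d.b_pos
  have h2 : (0 : ℝ) < d.P := by
    have := d.hP
    exact_mod_cast (by omega : 0 < d.P)
  have h3 := d.Y_pos
  positivity

end

end Pool.Agent.Lib.MP_d57abb_nt.GA.MS
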