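import Mathlib
import Pool.Agent.Lib.MP_d57abb_nt.GA.MS.Defs

/-!
# angle, norm and determinant

`v.1 ≥ 1`, `v.2 ≥ 0` (`hv`).  `pp v = v.1 + v.2 al ≥ qq v = v.1 + v.2 be > 0` (`al > be > 0`, `al_lo`, `be_lo`), `pp v * qq v = nm v` (`pp_mul_qq`), `an v = log (pp v) - log (qq v)`.
* `pp_eq`: `√(nm v) exp (an v / 2) = √(pp qq) √(pp / qq) = pp` (take logarithms, or square both sides: `nm v exp (an v) = pp qq (pp/qq) = pp²`; `Real.exp_log`).
* `dt_exp`: from `dt_eq`: `(dt v w) √5 = pp w qq v - pp v qq w` and `pp_eq`, `qq_eq`, `Real.exp_add`.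
* `ll_kap`: `(1 - be) pp v + (al - 1) qq v = √5 (v.1 + v.2)` (`al - be = √5`, `al * be = 1`, `al + be = 3`: coefficient of `v.1`: `1 - be + al - 1 = √5`; of `v.2`: `(1 - be) al + (al - 1) be = al - be = √5`).
* `mu1_kap`: `mu1 v = (ll v)² / nm v = kap²`.
* `an_nonneg`: `pp v ≥ qq v`; `an_lt`: `pp v < al² qq v`: `al² qq v - pp v = v.1 (al² - 1) + v.2 (al² be - al) = v.1 (al² - 1) > 0` (`al * be = 1`), so `an v < log (al²) = 2 log al`.
* `kap_vec_le`: `kap (an v) ≤ 1` because `(ll v)² ≤ nm v`; `two_log_al_le`: `2 log al < 2`: `al < 2.6185 < e = 2.718..` (`Real.exp_one_gt_d9`), so `log al < 1`.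
-/

open Finset

namespace Pool.Agent.Lib.MP_d57abb_nt.GA.MS

variable [Pool.Agent.Lib.MP_d57abb_nt.GA.TA.Lab]

open Pool.Agent.Lib.MP_d57abb_nt Pool.Agent.Lib.MP_d57abb_nt.GA.TA

private theorem Ang_pos (v : ℤ × ℤ) (h1 : 1 ≤ v.1) (h2 : 0 ≤ v.2) :
    (1 : ℝ) ≤ (v.1 : ℝ) ∧ (0 : ℝ) ≤ (v.2 : ℝ) ∧ 0 < pp v ∧ 0 < qq v := by
  have h1' : (1 : ℝ) ≤ (v.1 : ℝ) := by exact_mod_cast h1
  have h2' : (0 : ℝ) ≤ (v.2 : ℝ) := by exact_mod_cast h2
  have ha := al_lo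
  have hb := be_lo
  have p1 : 0 ≤ (v.2 : ℝ) * al := mul_nonneg h2' (by linarith)
  have p2 : 0 ≤ (v.2 : ℝ) * be := mul_nonneg h2' (by linarith)
  refine ⟨h1', h2', ?_, ?_⟩
  · unfold pp
    linarith
  · unfold qq
    linarith

theorem nm_ge_one (v : ℤ × ℤ) (h1 : 1 ≤ v.1) (h2 : 0 ≤ v.2) : (1 : ℝ) ≤ (nm v : ℝ) := by
  have h3 : (1 : ℤ) ≤ nm v := by
    unfold nm
    nlinarith [mul_nonneg (by omega : 0 ≤ v.1) h2, sq_nonneg v.2]
  exact_mod_cast h3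

private theorem Ang_exp (v : ℤ × ℤ) (h1 : 1 ≤ v.1) (h2 : 0 ≤ v.2) :
    Real.exp (an v) = pp v / qq v := by
  obtain ⟨_, _, p1, p2⟩ := Ang_pos v h1 h2
  unfold an
  rw [Real.exp_sub, Real.exp_log p1, Real.exp_log p2]

theorem pp_eq (v : ℤ × ℤ) (h1 : 1 ≤ v.1) (h2 : 0 ≤ v.2) : pp v = √(nm v : ℝ) * Real.exp (an v / 2) := by
  obtain ⟨_, _, p1, p2⟩ := Ang_pos v h1 h2
  have h3 := Ang_exp v h1 h2
  have h4 : Real.exp (an v / 2) ^ 2 = pp v / qq v := by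
    rw [← h3, ← Real.exp_nat_mul]
    congr 1
    push_cast
    ring
  have hn := nm_ge_one v h1 h2
  have h5 : (pp v) ^ 2 = (√(nm v : ℝ) * Real.exp (an v / 2)) ^ 2 := by
    rw [mul_pow, h4, Real.sq_sqrt (by linarith), ← pp_mul_qq]
    field_simp
  exact (pow_left_inj₀ p1.le (by positivity) (by norm_num)).1 h5

theorem qq_eq (v : ℤ × ℤ) (h1 : 1 ≤ v.1) (h2 : 0 ≤ v.2) : qq v = √(nm v : ℝ) * Real.exp (-(an v / 2)) := by
  obtain ⟨_, _, p1, p2⟩ := Ang_pos v h1 h2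
  have h3 := Ang_exp v h1 h2
  have h4 : Real.exp (-(an v / 2)) ^ 2 = qq v / pp v := by
    rw [← Real.exp_nat_mul]
    have : ((2 : ℕ) : ℝ) * (-(an v / 2)) = -(an v) := by
      push_cast
      ring
    rw [this, Real.exp_neg, h3, inv_div]
  have hn := nm_ge_one v h1 h2
  have h5 : (qq v) ^ 2 = (√(nm v : ℝ) * Real.exp (-(an v / 2))) ^ 2 := by
    rw [mul_pow, h4, Real.sq_sqrt (by linarith), ← pp_mul_qq]
    field_simp
  exact (pow_left_inj₀ p2.le (by positivity) (by norm_num)).1 h5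

theorem dt_exp (v w : ℤ × ℤ) (h1 : 1 ≤ v.1) (h2 : 0 ≤ v.2) (h3 : 1 ≤ w.1) (h4 : 0 ≤ w.2) :
    (dt v w : ℝ) = √(nm v : ℝ) * √(nm w : ℝ) *
      (Real.exp ((an w - an v) / 2) - Real.exp (-((an w - an v) / 2))) / √5 := by
  have h5 : (√5 : ℝ) ≠ 0 := by positivity
  rw [eq_div_iff h5, dt_eq, pp_eq w h3 h4, qq_eq v h1 h2, pp_eq v h1 h2, qq_eq w h3 h4]
  have e1 : Real.exp ((an w - an v) / 2) = Real.exp (an w / 2) * Real.exp (-(an v / 2)) := by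
    rw [← Real.exp_add]
    congr 1
    ring
  have e2 : Real.exp (-((an w - an v) / 2)) = Real.exp (an v / 2) * Real.exp (-(an w / 2)) := by
    rw [← Real.exp_add]
    congr 1
    ring
  rw [e1, e2]
  ring

theorem ll_kap (v : ℤ × ℤ) (h1 : 1 ≤ v.1) (h2 : 0 ≤ v.2) : (ll v : ℝ) = √(nm v : ℝ) * kap (an v) := by
  have h5 : (√5 : ℝ) ≠ 0 := by positivity
  have e1 : √(nm v : ℝ) * kap (an v) = ((1 - be) * pp v + (al - 1) * qq v) / √5 := by
    unfold kap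
    rw [pp_eq v h1 h2, qq_eq v h1 h2]
    ring
  rw [e1, eq_div_iff h5]
  have e2 : (ll v : ℝ) = (v.1 : ℝ) + v.2 := by
    unfold ll
    push_cast
    ring
  rw [e2, ← al_sub_be]
  unfold pp qq
  have e3 := al_mul_be
  linear_combination (0 : ℝ) * e3

theorem mu1_kap (v : ℤ × ℤ) (h1 : 1 ≤ v.1) (h2 : 0 ≤ v.2) : mu1 v = kap (an v) ^ 2 := by
  have hn := nm_ge_one v h1 h2
  unfold mu1
  rw [ll_kap v h1 h2, mul_pow, Real.sq_sqrt (by linarith)]
  field_simp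

theorem an_nonneg (v : ℤ × ℤ) (h1 : 1 ≤ v.1) (h2 : 0 ≤ v.2) : 0 ≤ an v := by
  obtain ⟨_, q2, p1, p2⟩ := Ang_pos v h1 h2
  unfold an
  rw [sub_nonneg]
  apply Real.log_le_log p2
  unfold pp qq
  have ha := al_lo
  have hb := be_hi
  have : (v.2 : ℝ) * be ≤ (v.2 : ℝ) * al := mul_le_mul_of_nonneg_left (by linarith) q2
  linarith

theorem an_lt (v : ℤ × ℤ) (h1 : 1 ≤ v.1) (h2 : 0 ≤ v.2) : an v < 2 * Real.log al := by
  obtain ⟨q1, q2, p1, p2⟩ := Ang_pos v h1 h2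
  have ha := al_lo
  have hal : 0 < al := by linarith
  have h3 : pp v < al ^ 2 * qq v := by
    have e : al ^ 2 * qq v - pp v = (v.1 : ℝ) * (al ^ 2 - 1) := by
      unfold pp qq
      have := al_mul_be
      linear_combination (v.2 : ℝ) * al * this
    have : 0 < (v.1 : ℝ) * (al ^ 2 - 1) := by
      apply mul_pos (by linarith)
      nlinarith
    linarith
  have h4 : an v < Real.log (al ^ 2) := by
    unfold an
    rw [sub_lt_iff_lt_add, ← Real.log_mul (by positivity) p2.ne']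
    exact Real.log_lt_log p1 h3
  rw [Real.log_pow] at h4
  exact_mod_cast h4

theorem two_log_al_lt : 2 * Real.log al < 2 := by
  have ha := al_lo
  have hb := al_hi
  have h1 := Real.exp_one_gt_d9
  have h2 : Real.log al < 1 := by
    rw [Real.log_lt_iff_lt_exp (by linarith)]
    linarith
  linarith

theorem kap_vec_le (v : ℤ × ℤ) (h1 : 1 ≤ v.1) (h2 : 0 ≤ v.2) : kap (an v) ≤ 1 := by
  have hn := nm_ge_one v h1 h2
  have h3 := mu1_kap v h1 h2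
  have h4 : mu1 v ≤ 1 := by
    unfold mu1
    rw [div_le_one (by linarith)]
    have h5 : (ll v) ^ 2 ≤ nm v := by
      unfold ll nm
      nlinarith [mul_nonneg (by omega : 0 ≤ v.1) h2]
    exact_mod_cast h5
  rw [h3] at h4
  by_contra hcon
  push Not at hcon
  nlinarith

end Pool.Agent.Lib.MP_d57abb_nt.GA.MS
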