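import Mathlib
import Pool.Agent.Lib.MP_d57abb_nt.GA.MS.Dd
import Pool.Agent.Lib.MP_d57abb_nt.GA.MS.Kap

/-!
# the weight and the approximate weight

Let `v ∈ wd θ`, `w ∈ wd (θ + l h)`, `l < Lm`, `α = an v`, `β = an w`, `s = √(nm v)/Y`, `s' = √(nm w)/Y`, `r = rr v`, `r' = rr w`.  `0 ≤ α, β < 2` (`an_nonneg`, `an_lt`, `two_log_al_lt`), `|α - θ| ≤ 1/(10 n)`, `|β - θ| ≤ 1/(5 n)` (`del_facts`), so `-1/10 ≤ θ ≤ 2`
(`θ ≤ α < 2`, `θ ≥ α - 1/(10 n)`).  `G (v, w) = gm (κ(α)²) Wh (s κ(α)) (s' κ(β))` (`mu1_kap`, `ll_kap`), `g θ r r' = gm (κ(θ)²) Wh ((r/n) κ(θ)) ((r'/n) κ(θ))`, `0 ≤ gm ≤ 1`.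
* `G_le`: `|G| ≤ B` because `0 ≤ gm ≤ 1`.  `g_le`: `|g θ r r'| ≤ B ≤ 2 B`.
* `G_g`: `|κ(α)² - κ(θ)²| = |κ(α) - κ(θ)| (κ(α) + κ(θ)) ≤ 3/n` (`kap_lip`, `kap_le`); `|s κ(α) - (r/n) κ(θ)| ≤ |s - r/n| κ(α) + (r/n) |κ(α) - κ(θ)| ≤ 1/n + S/n`, the same for `s' κ(β) - (r'/n) κ(θ)`.  So
`|G - g| ≤ |gm (κ(α)²) - gm (κ(θ)²)| |Wh ..| + 1 · L 2 (1 + S)/n ≤ (3/n) B + 2 L (1 + S)/n ≤ 2^(k+4) (B + L)/n` (`wG`; `S = 2^(k+2)`).
* `Om_G`: if `G ≠ 0` then `ll v/Y ∈ [1/2, 2]`, `ll w/Y ≤ 2^(k+1)` (`wS`), so `Om`.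
* `Om_g`: if `g θ r r' ≠ 0` then `(r/n) κ(θ) ∈ [1/2, 2]`, `(r'/n) κ(θ) ≤ 2^(k+1)`, with `4/5 ≤ κ(θ) ≤ 11/10`: `r/n ∈ [5/11, 5/2]`, so `s ≥ 5/11 - 1/n`, `ll v = s κ(α) Y ≥ (5/11 - 1/n) (4/5) Y ≥ Y/4` and `ll v ≤ (5/2) Y ≤ 4 Y` (`κ(α) ≤ 1`);
`ll w ≤ s' Y ≤ (r'/n) Y ≤ 2^(k+1) (5/4) Y ≤ 2^(k+2) Y`.
-/

open Finset

namespace Pool.Agent.Lib.MP_d57abb_nt.GA.MS

variable [Pool.Agent.Lib.MP_d57abb_nt.GA.TA.Lab]

open Pool.Agent.Lib.MP_d57abb_nt Pool.Agent.Lib.MP_d57abb_nt.GA.TA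

private theorem Gd_n1 (d : Dt) : (8192 : ℝ) ≤ (d.n : ℝ) := by
  have h1 : 2 ^ 13 ≤ d.n := le_trans (Nat.pow_le_pow_right (by norm_num) (by omega)) d.hn
  norm_num at h1
  exact_mod_cast h1

private theorem Gd_S (d : Dt) : 4 ≤ d.S ∧ (2 : ℝ) ^ (d.k + 4) = 4 * d.S := by
  unfold Dt.S
  have h1 : (1 : ℝ) ≤ 2 ^ d.k := one_le_pow₀ (by norm_num)
  constructor
  · rw [pow_add]
    norm_num
    linarith
  · rw [pow_add, pow_add]
    norm_num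
    ring

private theorem Gd_q (d : Dt) (v : ℤ × ℤ) (hv : v ∈ d.VS) : 1 ≤ v.1 ∧ 0 ≤ v.2 := by
  unfold Dt.VS at hv
  rw [mem_VV] at hv
  exact ⟨hv.1.1.1, hv.1.2.1⟩

private theorem Gd_VS (d : Dt) (θ : ℝ) (v : ℤ × ℤ) (hv : v ∈ d.wd θ) : v ∈ d.VS := by
  unfold Dt.wd at hv
  rw [mem_wn] at hv
  exact hv.1

private theorem Gd_an (v : ℤ × ℤ) (h : 1 ≤ v.1 ∧ 0 ≤ v.2) : 0 ≤ an v ∧ an v ≤ 2 :=
  ⟨an_nonneg v h.1 h.2, ((an_lt v h.1 h.2).trans two_log_al_lt).le⟩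

private theorem Gd_h (d : Dt) (θ : ℝ) (v : ℤ × ℤ) (hv : v ∈ d.wd θ) : |an v - θ| ≤ 1 / (10 * d.n) := by
  have h1 : v ∈ d.wd (θ + (0 : ℕ) * d.h) := by
    rw [Nat.cast_zero, zero_mul, add_zero]
    exact hv
  have h2 : 0 < d.Lm := by
    unfold Dt.Lm
    omega
  exact (del_facts d θ 0 h2 v v hv h1).2.2.2.2.1

/-- `ll v / Y = s * kap (an v)` -/
private theorem Gd_ll (d : Dt) (v : ℤ × ℤ) (h : 1 ≤ v.1 ∧ 0 ≤ v.2) :
    (ll v : ℝ) / d.Y = √(nm v : ℝ) / d.Y * kap (an v) := by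
  rw [ll_kap v h.1 h.2]
  ring

theorem th_range (d : Dt) (θ : ℝ) (v : ℤ × ℤ) (hv : v ∈ d.wd θ) : -(1 / 10) ≤ θ ∧ θ ≤ 2 := by
  have hq := Gd_q d v (Gd_VS d θ v hv)
  have ha := Gd_an v hq
  have hh := Gd_h d θ v hv
  have hn := Gd_n1 d
  have h1 : 1 / (10 * (d.n : ℝ)) ≤ 1 / 10 := by
    apply one_div_le_one_div_of_le (by norm_num)
    linarith
  have h2 : θ ≤ an v := by
    unfold Dt.wd at hv
    rw [mem_wn] at hv
    exact hv.2.1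
  rw [abs_le] at hh
  constructor
  · linarith
  · linarith

theorem G_le (d : Dt) (v w : ℤ × ℤ) (hv : v ∈ d.VS) : |d.G (v, w)| ≤ d.B := by
  have _ := hv
  have h1 : d.G (v, w) = d.gm (mu1 v) * d.Wh (ll v / d.Y) (ll w / d.Y) := rfl
  have h5 := d.wB (ll v / d.Y) (ll w / d.Y)
  rw [h1, abs_mul, abs_of_nonneg (d.g0 _)]
  calc d.gm (mu1 v) * |d.Wh (ll v / d.Y) (ll w / d.Y)| ≤ 1 * d.B :=
        mul_le_mul (d.g1 _) h5 (abs_nonneg _) zero_le_one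
    _ = d.B := one_mul _

theorem g_le (d : Dt) (θ : ℝ) (h1 : -(1 / 10) ≤ θ) (h2 : θ ≤ 2) (r r' : ℕ) : |d.g θ r r'| ≤ 2 * d.B := by
  have _ := h1
  have _ := h2
  have h5 : d.gm (kap θ ^ 2) ≤ 2 := (d.g1 _).trans (by norm_num)
  unfold Dt.g
  rw [abs_mul, abs_of_nonneg (d.g0 _)]
  exact mul_le_mul h5 (d.wB _ _) (abs_nonneg _) (by norm_num)

theorem G_g (d : Dt) (θ : ℝ) (l : ℕ) (hl : l < d.Lm) (v w : ℤ × ℤ) (hv : v ∈ d.wd θ)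
    (hw : w ∈ d.wd (θ + l * d.h)) :
    |d.G (v, w) - d.g θ (d.rr v) (d.rr w)| ≤ 2 ^ (d.k + 4) * (d.B + d.L) / d.n := by
  have hvS := Gd_VS d θ v hv
  have hwS := Gd_VS d _ w hw
  have hq := Gd_q d v hvS
  have hq' := Gd_q d w hwS
  obtain ⟨ha1, ha2⟩ := Gd_an v hq
  obtain ⟨hb1, hb2⟩ := Gd_an w hq'
  obtain ⟨ht1, ht2⟩ := th_range d θ v hv
  obtain ⟨-, -, -, -, hd1, hd2⟩ := del_facts d θ l hl v w hv hw
  obtain ⟨-, -, -, r1, r2, r3⟩ := rr_facts d v hvS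
  obtain ⟨-, -, -, r1', r2', r3'⟩ := rr_facts d w hwS
  have hn := Gd_n1 d
  have hn0 : (0 : ℝ) < d.n := by linarith
  obtain ⟨hS4, hS⟩ := Gd_S d
  have hG : d.G (v, w) = d.gm (mu1 v) * d.Wh (ll v / d.Y) (ll w / d.Y) := rfl
  have hg : d.g θ (d.rr v) (d.rr w) = d.gm (kap θ ^ 2) *
      d.Wh ((d.rr v : ℝ) / d.n * kap θ) ((d.rr w : ℝ) / d.n * kap θ) := rfl
  rw [hG, hg, mu1_kap v hq.1 hq.2, Gd_ll d v hq, Gd_ll d w hq']
  have k1 := kap_pos (an v)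
  have k2 := kap_vec_le v hq.1 hq.2
  have k3 := kap_pos (an w)
  have k4 := kap_vec_le w hq'.1 hq'.2
  have k5 := kap_pos θ
  have k6 := kap_le θ ht1 ht2
  have l1 : |kap (an v) - kap θ| ≤ 1 / (10 * d.n) :=
    (kap_lip (an v) θ (by linarith) ha2 (by linarith) ht2).trans hd1
  have l2 : |kap (an w) - kap θ| ≤ 1 / (5 * d.n) :=
    (kap_lip (an w) θ (by linarith) hb2 (by linarith) ht2).trans hd2
  have e1 : 1 / (10 * (d.n : ℝ)) = 1 / 10 * (1 / d.n) := by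
    rw [one_div_mul_one_div]
  have e2 : 1 / (5 * (d.n : ℝ)) = 1 / 5 * (1 / d.n) := by
    rw [one_div_mul_one_div]
  rw [e1] at l1
  rw [e2] at l2
  set t : ℝ := 1 / (d.n : ℝ) with ht
  have t0 : 0 < t := by positivity
  set s : ℝ := √(nm v : ℝ) / d.Y with hs
  set s' : ℝ := √(nm w : ℝ) / d.Y with hs'
  set r : ℝ := (d.rr v : ℝ) / d.n with hr
  set r' : ℝ := (d.rr w : ℝ) / d.n with hr'
  set κ : ℝ := kap θ with hκ
  set κa : ℝ := kap (an v) with hκa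
  set κb : ℝ := kap (an w) with hκb
  have r0 : 0 ≤ r := by positivity
  have r0' : 0 ≤ r' := by positivity
  have B0 := d.B1
  have L0 := d.L0
  -- the arguments
  have a1 : |s * κa - r * κ| ≤ t * (1 + d.S) := by
    have q1 : s * κa - r * κ = (s - r) * κa + r * (κa - κ) := by ring
    have q2 : |s - r| ≤ t := by
      rw [abs_le]
      constructor
      · linarith
      · linarith
    calc |s * κa - r * κ| ≤ |(s - r) * κa| + |r * (κa - κ)| := by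
          rw [q1]
          exact abs_add_le _ _
      _ = |s - r| * κa + r * |κa - κ| := by
          rw [abs_mul, abs_mul, abs_of_pos k1, abs_of_nonneg r0]
      _ ≤ t * 1 + d.S * (1 / 10 * t) := by gcongr
      _ ≤ t * (1 + d.S) := by
          have : 0 ≤ d.S * t := by positivity
          linarith
  have a2 : |s' * κb - r' * κ| ≤ t * (1 + d.S) := by
    have q1 : s' * κb - r' * κ = (s' - r') * κb + r' * (κb - κ) := by ring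
    have q2 : |s' - r'| ≤ t := by
      rw [abs_le]
      constructor
      · linarith
      · linarith
    calc |s' * κb - r' * κ| ≤ |(s' - r') * κb| + |r' * (κb - κ)| := by
          rw [q1]
          exact abs_add_le _ _
      _ = |s' - r'| * κb + r' * |κb - κ| := by
          rw [abs_mul, abs_mul, abs_of_pos k3, abs_of_nonneg r0']
      _ ≤ t * 1 + d.S * (1 / 5 * t) := by gcongr
      _ ≤ t * (1 + d.S) := by
          have : 0 ≤ d.S * t := by positivity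
          linarith
  have a3 : |d.Wh (s * κa) (s' * κb) - d.Wh (r * κ) (r' * κ)| ≤ d.L * (2 * (t * (1 + d.S))) := by
    refine (d.wL _ _ _ _).trans ?_
    exact mul_le_mul_of_nonneg_left (by linarith) L0
  have a4 : |κa ^ 2 - κ ^ 2| ≤ 3 * t := by
    have q1 : κa ^ 2 - κ ^ 2 = (κa - κ) * (κa + κ) := by ring
    rw [q1, abs_mul, abs_of_pos (by positivity : 0 < κa + κ)]
    calc |κa - κ| * (κa + κ) ≤ (1 / 10 * t) * (1 + 11 / 10) := by gcongr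
      _ ≤ 3 * t := by linarith
  have a5 := d.g0 (κ ^ 2)
  have a5' := d.g1 (κ ^ 2)
  have a6 : d.gm (κa ^ 2) * d.Wh (s * κa) (s' * κb) - d.gm (κ ^ 2) * d.Wh (r * κ) (r' * κ) =
      (d.gm (κa ^ 2) - d.gm (κ ^ 2)) * d.Wh (s * κa) (s' * κb) +
        d.gm (κ ^ 2) * (d.Wh (s * κa) (s' * κb) - d.Wh (r * κ) (r' * κ)) := by ring
  have a7 : 2 ^ (d.k + 4) * (d.B + d.L) / (d.n : ℝ) = 4 * d.S * (d.B + d.L) * t := by
    rw [hS, ht]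
    ring
  have a8 : |d.gm (κa ^ 2) - d.gm (κ ^ 2)| * |d.Wh (s * κa) (s' * κb)| ≤ d.B * (3 * t) := by
    refine (d.wG (s * κa) (s' * κb) (κa ^ 2) (κ ^ 2)).trans ?_
    exact mul_le_mul_of_nonneg_left a4 (by linarith)
  rw [a7, a6]
  calc |(d.gm (κa ^ 2) - d.gm (κ ^ 2)) * d.Wh (s * κa) (s' * κb) +
        d.gm (κ ^ 2) * (d.Wh (s * κa) (s' * κb) - d.Wh (r * κ) (r' * κ))|
      ≤ |(d.gm (κa ^ 2) - d.gm (κ ^ 2)) * d.Wh (s * κa) (s' * κb)| +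
        |d.gm (κ ^ 2) * (d.Wh (s * κa) (s' * κb) - d.Wh (r * κ) (r' * κ))| := abs_add_le _ _
    _ = |d.gm (κa ^ 2) - d.gm (κ ^ 2)| * |d.Wh (s * κa) (s' * κb)| +
        d.gm (κ ^ 2) * |d.Wh (s * κa) (s' * κb) - d.Wh (r * κ) (r' * κ)| := by
        rw [abs_mul, abs_mul, abs_of_nonneg a5]
    _ ≤ d.B * (3 * t) + 1 * (d.L * (2 * (t * (1 + d.S)))) := by
        refine add_le_add a8 ?_
        exact mul_le_mul a5' a3 (abs_nonneg _) zero_le_one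
    _ ≤ 4 * d.S * (d.B + d.L) * t := by
        have q1 : 0 ≤ (d.S - 4) * (d.B * t) := mul_nonneg (by linarith) (by positivity)
        have q2 : 0 ≤ (d.S - 4) * (d.L * t) := mul_nonneg (by linarith) (by positivity)
        have q3 : 0 ≤ d.B * t := by positivity
        have q4 : 0 ≤ d.L * t := by positivity
        have q5 : 4 * d.S * (d.B + d.L) * t - (d.B * (3 * t) + 1 * (d.L * (2 * (t * (1 + d.S))))) =
            4 * ((d.S - 4) * (d.B * t)) + 13 * (d.B * t) + 2 * ((d.S - 4) * (d.L * t)) +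
              6 * (d.L * t) := by ring
        linarith

theorem Om_G (d : Dt) (v w : ℤ × ℤ) (h : d.G (v, w) ≠ 0) : d.Om (v, w) := by
  have hG : d.G (v, w) = d.gm (mu1 v) * d.Wh (ll v / d.Y) (ll w / d.Y) := rfl
  rw [hG] at h
  have h1 := d.wS _ _ (right_ne_zero_of_mul h)
  have hY := d.Y_pos
  obtain ⟨⟨h2, h3⟩, -, h4⟩ := h1
  rw [le_div_iff₀ hY] at h2
  rw [div_le_iff₀ hY] at h3 h4
  have h5 : (2 : ℝ) ^ (d.k + 1) ≤ 2 ^ (d.k + 2) := pow_le_pow_right₀ (by norm_num) (by omega)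
  have h6 : (2 : ℝ) ^ (d.k + 1) * d.Y ≤ 2 ^ (d.k + 2) * d.Y := mul_le_mul_of_nonneg_right h5 hY.le
  refine ⟨?_, ?_, ?_⟩
  · show d.Y / 4 ≤ (ll v : ℝ)
    linarith
  · show (ll v : ℝ) ≤ 4 * d.Y
    linarith
  · show (ll w : ℝ) ≤ 2 ^ (d.k + 2) * d.Y
    linarith

theorem Om_g (d : Dt) (θ : ℝ) (l : ℕ) (hl : l < d.Lm) (v w : ℤ × ℤ) (hv : v ∈ d.wd θ)
    (hw : w ∈ d.wd (θ + l * d.h)) (h : d.g θ (d.rr v) (d.rr w) ≠ 0) : d.Om (v, w) := by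
  have _ := hl
  have hvS := Gd_VS d θ v hv
  have hwS := Gd_VS d _ w hw
  have hq := Gd_q d v hvS
  have hq' := Gd_q d w hwS
  obtain ⟨ht1, ht2⟩ := th_range d θ v hv
  obtain ⟨-, -, -, r1, r2, r3⟩ := rr_facts d v hvS
  obtain ⟨-, -, -, r1', r2', r3'⟩ := rr_facts d w hwS
  have hn := Gd_n1 d
  have hn0 : (0 : ℝ) < d.n := by linarith
  have hY := d.Y_pos
  have hg : d.g θ (d.rr v) (d.rr w) = d.gm (kap θ ^ 2) *
      d.Wh ((d.rr v : ℝ) / d.n * kap θ) ((d.rr w : ℝ) / d.n * kap θ) := rfl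
  rw [hg] at h
  obtain ⟨⟨w1, w2⟩, -, w3⟩ := d.wS _ _ (right_ne_zero_of_mul h)
  have k1 := kap_pos (an v)
  have k2 := kap_vec_le v hq.1 hq.2
  have k3 := kap_pos (an w)
  have k4 := kap_vec_le w hq'.1 hq'.2
  have k5 := (kap_ge θ).1
  have k6 := kap_le θ ht1 ht2
  have k7 := (kap_ge (an v)).1
  have e1 := Gd_ll d v hq
  have e2 := Gd_ll d w hq'
  have ht : 1 / (d.n : ℝ) ≤ 1 / 100 := by
    apply one_div_le_one_div_of_le (by norm_num)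
    linarith
  set s : ℝ := √(nm v : ℝ) / d.Y with hs
  set s' : ℝ := √(nm w : ℝ) / d.Y with hs'
  set r : ℝ := (d.rr v : ℝ) / d.n with hr
  set r' : ℝ := (d.rr w : ℝ) / d.n with hr'
  have r0 : 0 ≤ r := by positivity
  have r0' : 0 ≤ r' := by positivity
  have s0 : 0 ≤ s := by positivity
  have s0' : 0 ≤ s' := by positivity
  -- the size of `r`
  have c1 : 5 / 11 ≤ r := by nlinarith
  have c2 : r ≤ 5 / 2 := by nlinarith
  have c3 : r' ≤ 5 / 4 * 2 ^ (d.k + 1) := by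
    have : r' * (4 / 5) ≤ r' * kap θ := mul_le_mul_of_nonneg_left k5 r0'
    linarith
  have c4 : 4 / 9 ≤ s := by linarith
  have c5 : 1 / 4 ≤ s * kap (an v) := by nlinarith
  have c6 : s * kap (an v) ≤ s := mul_le_of_le_one_right s0 k2
  have c7 : s' * kap (an w) ≤ s' := mul_le_of_le_one_right s0' k4
  rw [← e1] at c5 c6
  rw [← e2] at c7
  have c8 : (ll v : ℝ) / d.Y ≤ 4 := by linarith
  have c9 : (ll w : ℝ) / d.Y ≤ 2 ^ (d.k + 2) := by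
    have q1 : (2 : ℝ) ^ (d.k + 2) = 2 * 2 ^ (d.k + 1) := by
      rw [← pow_succ']
    have q2 : (0 : ℝ) < 2 ^ (d.k + 1) := by positivity
    linarith
  rw [le_div_iff₀ hY] at c5
  rw [div_le_iff₀ hY] at c8 c9
  refine ⟨?_, ?_, ?_⟩
  · show d.Y / 4 ≤ (ll v : ℝ)
    linarith
  · exact c8
  · exact c9

end Pool.Agent.Lib.MP_d57abb_nt.GA.MS
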