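import Mathlib
import Pool.Agent.Lib.MP_d57abb_nt.GA.MS.Defs

/-!
# The residue condition
-/

open Finset

namespace Pool.Agent.Lib.MP_d57abb_nt.GA.MS

variable [Pool.Agent.Lib.MP_d57abb_nt.GA.TA.Lab]

open Pool.Agent.Lib.MP_d57abb_nt Pool.Agent.Lib.MP_d57abb_nt.GA.TA

private theorem res_cls (W : ℕ) (v w : ℤ × ℤ) :
    ((cls W v).1 * (cls W w).2 - (cls W w).1 * (cls W v).2) % (W : ℤ) = dt v w % (W : ℤ) := by
  have h1 : ∀ x : ℤ, x % (W : ℤ) ≡ x [ZMOD (W : ℤ)] := fun x => Int.mod_modEq x (W : ℤ)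
  exact ((h1 v.1).mul (h1 w.2)).sub ((h1 w.1).mul (h1 v.2))

theorem NN_iff (W b lo hi : ℕ) (hW : 0 < W) (v w : ℤ × ℤ) :
    (0 < dt v w ∧ (dt v w).toNat ∈ NC W b lo hi) ↔
      ((lo : ℝ) < (dt v w : ℝ) ∧ (dt v w : ℝ) ≤ hi) ∧ chi W b (cls W v) (cls W w) := by
  unfold chi
  rw [res_cls]
  rcases le_or_gt (dt v w) 0 with hm | hm
  · refine ⟨fun h => absurd h.1 (not_lt.mpr hm), fun h => ?_⟩
    exfalso
    have h1 : ((dt v w : ℤ) : ℝ) ≤ 0 := by exact_mod_cast hm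
    have h2 : (0 : ℝ) ≤ (lo : ℝ) := Nat.cast_nonneg lo
    have h3 := h.1.1
    linarith
  · obtain ⟨M, hM⟩ := Int.eq_ofNat_of_zero_le hm.le
    have e1 : (dt v w).toNat = M := by
      rw [hM]
      exact Int.toNat_natCast M
    have e2 : dt v w % (W : ℤ) = (b : ℤ) ↔ M % W = b := by
      rw [hM, ← Int.natCast_mod]
      exact Int.natCast_inj
    have e3 : ((dt v w : ℤ) : ℝ) = (M : ℝ) := by
      rw [hM]
      exact Int.cast_natCast M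
    rw [e1, e2, e3, Nat.cast_le, Nat.cast_lt, mem_NC]
    exact ⟨fun h => h.2, fun h => ⟨hm, h⟩⟩

end Pool.Agent.Lib.MP_d57abb_nt.GA.MS
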