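import Mathlib
import Pool.Agent.Lib.MP_d57abb_nt.GA.MS.Gd
import Pool.Agent.Lib.MP_d57abb_nt.GA.MS.Res

/-!
# the pointwise error

Let `x = (v, w)`, `v ∈ wd θ`, `w ∈ wd (θ + l h)`, `l < Lm`; `‖aa z _‖ = 1` (`aa z v = z ^ _`, `hz`).  Rewrite the condition of `K` by `NN_iff`: `A = (P/2 < dt ≤ P)`, `χ`; the condition of `Kt` is `A' = (P/2 < D ≤ P)`, `χ`.  `|dt - D| ≤ Del` (`Dd`).
* `χ` false, or `A`, `A'` both false: `K = Kt = 0`, `er ≥ 0`.
* `χ`, `A`, `A'` all true: `‖K - Kt‖ = |G - g|/Y²`.  If `G = g = 0` it is `0`; otherwise `Om` holds (`Om_G`, `Om_g`) and `0 < dt ≤ P`, so `er ≥ 2^(k+4) (B + L)/(n Y²) ≥ |G - g|/Y²` (`G_g`).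
* `χ` and exactly one of `A, A'`: `‖K - Kt‖ ≤ max (|G|, |g|)/Y² ≤ 2 B/Y²` (`G_le`, `g_le`, `th_range`), and it is `0` unless the corresponding `G` or `g` is `≠ 0`, hence `Om`.  In this case `|dt - P/2| ≤ Del` or `|dt - P| ≤ Del` (one of `dt, D` is in
`(P/2, P]`, the other is not, and they differ by at most `Del`).  Finally `0 < dt`: if `A` clear; if `A'`: `dt ≥ D - Del > P/2 - Del ≥ 0`: `Del ≤ P/2` because `2^(2k+10)/n ≤ 1/8`, `2^(2k+10)/b ≤ 1/8` (`hn`, `hb`) and `1 ≤ P/8` (`hP`): `Del ≤ P/8 + P/8 + P/8`.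
-/

open Finset

namespace Pool.Agent.Lib.MP_d57abb_nt.GA.MS

variable [Pool.Agent.Lib.MP_d57abb_nt.GA.TA.Lab]

open Pool.Agent.Lib.MP_d57abb_nt Pool.Agent.Lib.MP_d57abb_nt.GA.TA

theorem Del_le (d : Dt) : 0 ≤ d.Del ∧ d.Del ≤ 3 * (d.P : ℝ) / 8 := by
  have hn0 : (0 : ℝ) < d.n := by exact_mod_cast d.n_pos
  have hb0 : (0 : ℝ) < d.b := by exact_mod_cast d.b_pos
  have hP : (8 : ℝ) ≤ d.P := by exact_mod_cast d.hP
  have hn : (2 : ℝ) ^ (2 * d.k + 10) * 8 ≤ d.n := by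
    have h1 : (2 : ℝ) ^ (2 * d.k + 10) * 8 = (2 : ℝ) ^ (2 * d.k + 13) := by
      rw [show (8 : ℝ) = 2 ^ 3 by norm_num, ← pow_add]
    rw [h1]
    exact_mod_cast d.hn
  have hb : (2 : ℝ) ^ (2 * d.k + 10) * 8 ≤ d.b := by
    have h1 : (2 : ℝ) ^ (2 * d.k + 10) * 8 = (2 : ℝ) ^ (2 * d.k + 13) := by
      rw [show (8 : ℝ) = 2 ^ 3 by norm_num, ← pow_add]
    rw [h1]
    exact_mod_cast d.hb
  unfold Dt.Del
  have hT : (0 : ℝ) < (2 : ℝ) ^ (2 * d.k + 10) := by positivity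
  generalize (2 : ℝ) ^ (2 * d.k + 10) = T at hn hb hT ⊢
  constructor
  · positivity
  · have e1 : T * ((d.P : ℝ) / d.n) ≤ d.P / 8 := by
      rw [← mul_div_assoc, div_le_div_iff₀ hn0 (by norm_num)]
      nlinarith
    have e2 : T * ((d.P : ℝ) / d.b) ≤ d.P / 8 := by
      rw [← mul_div_assoc, div_le_div_iff₀ hb0 (by norm_num)]
      nlinarith
    rw [mul_add]
    linarith

private theorem Pw_c1 (d : Dt) : 0 ≤ 2 ^ (d.k + 4) * (d.B + d.L) / (d.n * d.Y ^ 2) := by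
  have h1 := d.B1
  have h2 := d.L0
  have h3 := d.Y_pos
  positivity

private theorem Pw_c2 (d : Dt) : 0 ≤ 2 * d.B / d.Y ^ 2 := by
  have h1 := d.B1
  have h3 := d.Y_pos
  positivity

theorem er_nonneg (d : Dt) (x : (ℤ × ℤ) × (ℤ × ℤ)) : 0 ≤ d.er x := by
  classical
  unfold Dt.er
  apply add_nonneg
  · by_cases h : d.Om x ∧ 0 < dt x.1 x.2 ∧ dt x.1 x.2 ≤ (d.P : ℤ)
    · rw [if_pos h]
      exact Pw_c1 d
    · rw [if_neg h]
  · by_cases h : d.Om x ∧ 0 < dt x.1 x.2 ∧ (|(dt x.1 x.2 : ℝ) - d.lo| ≤ d.Del ∨ |(dt x.1 x.2 : ℝ) - d.hi| ≤ d.Del)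
    · rw [if_pos h]
      exact Pw_c2 d
    · rw [if_neg h]

theorem aa_norm (d : Dt) (v : ℤ × ℤ) : ‖aa d.z v‖ = 1 := by
  unfold aa
  rw [norm_pow, d.hz, one_pow]

private theorem Pw_er1 (d : Dt) (v w : ℤ × ℤ) (h1 : d.Om (v, w)) (h2 : 0 < dt v w) (h3 : dt v w ≤ (d.P : ℤ)) :
    2 ^ (d.k + 4) * (d.B + d.L) / (d.n * d.Y ^ 2) ≤ d.er (v, w) := by
  classical
  unfold Dt.er
  rw [if_pos ⟨h1, h2, h3⟩]
  have : 0 ≤ (if d.Om (v, w) ∧ 0 < dt v w ∧
      (|(dt v w : ℝ) - d.lo| ≤ d.Del ∨ |(dt v w : ℝ) - d.hi| ≤ d.Del) then 2 * d.B / d.Y ^ 2 else 0) := by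
    by_cases h : d.Om (v, w) ∧ 0 < dt v w ∧
      (|(dt v w : ℝ) - d.lo| ≤ d.Del ∨ |(dt v w : ℝ) - d.hi| ≤ d.Del)
    · rw [if_pos h]
      exact Pw_c2 d
    · rw [if_neg h]
  show _ ≤ _ + (if d.Om (v, w) ∧ 0 < dt v w ∧
      (|(dt v w : ℝ) - d.lo| ≤ d.Del ∨ |(dt v w : ℝ) - d.hi| ≤ d.Del) then 2 * d.B / d.Y ^ 2 else 0)
  linarith

private theorem Pw_er2 (d : Dt) (v w : ℤ × ℤ) (h1 : d.Om (v, w)) (h2 : 0 < dt v w)
    (h3 : |(dt v w : ℝ) - d.lo| ≤ d.Del ∨ |(dt v w : ℝ) - d.hi| ≤ d.Del) :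
    2 * d.B / d.Y ^ 2 ≤ d.er (v, w) := by
  classical
  unfold Dt.er
  have : 0 ≤ (if d.Om (v, w) ∧ 0 < dt v w ∧ dt v w ≤ (d.P : ℤ) then
      2 ^ (d.k + 4) * (d.B + d.L) / (d.n * d.Y ^ 2) else 0) := by
    by_cases h : d.Om (v, w) ∧ 0 < dt v w ∧ dt v w ≤ (d.P : ℤ)
    · rw [if_pos h]
      exact Pw_c1 d
    · rw [if_neg h]
  show _ ≤ (if d.Om (v, w) ∧ 0 < dt v w ∧ dt v w ≤ (d.P : ℤ) then
      2 ^ (d.k + 4) * (d.B + d.L) / (d.n * d.Y ^ 2) else 0) + (if d.Om (v, w) ∧ 0 < dt v w ∧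
      (|(dt v w : ℝ) - d.lo| ≤ d.Del ∨ |(dt v w : ℝ) - d.hi| ≤ d.Del) then 2 * d.B / d.Y ^ 2 else 0)
  rw [if_pos (show d.Om (v, w) ∧ 0 < dt v w ∧
      (|(dt v w : ℝ) - d.lo| ≤ d.Del ∨ |(dt v w : ℝ) - d.hi| ≤ d.Del) from ⟨h1, h2, h3⟩)]
  linarith

private theorem Pw_norm (d : Dt) (v w : ℤ × ℤ) (c : ℝ) :
    ‖((c / d.Y ^ 2 : ℝ) : ℂ) * aa d.z v * aa d.z w‖ = |c| / d.Y ^ 2 := by
  have h3 := d.Y_pos
  rw [norm_mul, norm_mul, aa_norm, aa_norm, mul_one, mul_one, Complex.norm_real, Real.norm_eq_abs, abs_div,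
    abs_of_pos (by positivity : 0 < d.Y ^ 2)]

theorem pw (d : Dt) (θ : ℝ) (l : ℕ) (hl : l < d.Lm) (v w : ℤ × ℤ) (hv : v ∈ d.wd θ)
    (hw : w ∈ d.wd (θ + l * d.h)) : ‖d.K (v, w) - d.Kt θ l (v, w)‖ ≤ d.er (v, w) := by
  classical
  have hY := d.Y_pos
  have hY2 : 0 < d.Y ^ 2 := by positivity
  have hB := d.B1
  have hVS : v ∈ d.VS := by
    unfold Dt.wd at hv
    rw [mem_wn] at hv
    exact hv.1
  obtain ⟨ht1, ht2⟩ := th_range d θ v hv
  obtain ⟨hD0, hD1⟩ := Del_le d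
  have hDd := Dd d θ l hl v w hv hw
  rw [abs_le] at hDd
  have hP : (8 : ℝ) ≤ d.P := by exact_mod_cast d.hP
  have her := er_nonneg d (v, w)
  have hlo : (d.P : ℝ) / 2 - 1 / 2 ≤ d.lo := by
    have h1 : d.P ≤ 2 * d.lo + 1 := by
      have := d.hlo
      omega
    have h2 : (d.P : ℝ) ≤ 2 * d.lo + 1 := by exact_mod_cast h1
    linarith
  have hK : d.K (v, w) = if ((d.lo : ℝ) < (dt v w : ℝ) ∧ (dt v w : ℝ) ≤ d.hi) ∧ chi d.W d.bb (cls d.W v) (cls d.W w) then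
      ((d.G (v, w) / d.Y ^ 2 : ℝ) : ℂ) * aa d.z v * aa d.z w else 0 := by
    unfold Dt.K
    by_cases h : 0 < dt v w ∧ (dt v w).toNat ∈ NC d.W d.bb d.lo d.hi
    · rw [if_pos h, if_pos ((NN_iff d.W d.bb d.lo d.hi d.W0 v w).1 h)]
    · rw [if_neg h, if_neg (fun h' => h ((NN_iff d.W d.bb d.lo d.hi d.W0 v w).2 h'))]
  have hKt : d.Kt θ l (v, w) = if ((d.lo : ℝ) < d.D (d.rr v) (d.rr w) l ∧ d.D (d.rr v) (d.rr w) l ≤ d.hi) ∧
      chi d.W d.bb (cls d.W v) (cls d.W w) then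
      ((d.g θ (d.rr v) (d.rr w) / d.Y ^ 2 : ℝ) : ℂ) * aa d.z v * aa d.z w else 0 := by
    unfold Dt.Kt
    rfl
  rw [hK, hKt]
  by_cases hchi : chi d.W d.bb (cls d.W v) (cls d.W w)
  · by_cases hA : (d.lo : ℝ) < (dt v w : ℝ) ∧ (dt v w : ℝ) ≤ d.hi
    · have hdt0 : 0 < dt v w := by
        have : (0 : ℝ) < (dt v w : ℝ) := by linarith [hA.1]
        exact_mod_cast this
      have hdtP : dt v w ≤ (d.P : ℤ) := by
        have h1 : dt v w ≤ (d.hi : ℤ) := by exact_mod_cast hA.2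
        have h2 := d.hhi
        omega
      by_cases hA' : (d.lo : ℝ) < d.D (d.rr v) (d.rr w) l ∧ d.D (d.rr v) (d.rr w) l ≤ d.hi
      · rw [if_pos ⟨hA, hchi⟩, if_pos ⟨hA', hchi⟩]
        have e1 : ((d.G (v, w) / d.Y ^ 2 : ℝ) : ℂ) * aa d.z v * aa d.z w -
            ((d.g θ (d.rr v) (d.rr w) / d.Y ^ 2 : ℝ) : ℂ) * aa d.z v * aa d.z w =
            (((d.G (v, w) - d.g θ (d.rr v) (d.rr w)) / d.Y ^ 2 : ℝ) : ℂ) * aa d.z v * aa d.z w := by
          push_cast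
          ring
        rw [e1, Pw_norm]
        by_cases hOm : d.Om (v, w)
        · refine le_trans ?_ (Pw_er1 d v w hOm hdt0 hdtP)
          have h1 := G_g d θ l hl v w hv hw
          have e2 : 2 ^ (d.k + 4) * (d.B + d.L) / (d.n * d.Y ^ 2) = 2 ^ (d.k + 4) * (d.B + d.L) / d.n / d.Y ^ 2 := by
            rw [div_div]
          rw [e2]
          exact div_le_div_of_nonneg_right h1 hY2.le
        · have hG0 : d.G (v, w) = 0 := by
            by_contra h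
            exact hOm (Om_G d v w h)
          have hg0 : d.g θ (d.rr v) (d.rr w) = 0 := by
            by_contra h
            exact hOm (Om_g d θ l hl v w hv hw h)
          rw [hG0, hg0, sub_zero, abs_zero, zero_div]
          exact her
      · rw [if_pos ⟨hA, hchi⟩, if_neg (fun h => hA' h.1), sub_zero, Pw_norm]
        by_cases hOm : d.Om (v, w)
        · have hcl : |(dt v w : ℝ) - d.lo| ≤ d.Del ∨ |(dt v w : ℝ) - d.hi| ≤ d.Del := by
            by_cases h2 : (d.lo : ℝ) < d.D (d.rr v) (d.rr w) l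
            · have h3 : (d.hi : ℝ) < d.D (d.rr v) (d.rr w) l := by
                by_contra h4
                exact hA' ⟨h2, not_lt.1 h4⟩
              right
              rw [abs_le]
              constructor <;> linarith [hA.1, hA.2, hDd.1, hDd.2]
            · left
              have h3 := not_lt.1 h2
              rw [abs_le]
              constructor <;> linarith [hA.1, hA.2, hDd.1, hDd.2]
          refine le_trans ?_ (Pw_er2 d v w hOm hdt0 hcl)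
          apply div_le_div_of_nonneg_right _ hY2.le
          have := G_le d v w hVS
          linarith
        · have hG0 : d.G (v, w) = 0 := by
            by_contra h
            exact hOm (Om_G d v w h)
          rw [hG0, abs_zero, zero_div]
          exact her
    · by_cases hA' : (d.lo : ℝ) < d.D (d.rr v) (d.rr w) l ∧ d.D (d.rr v) (d.rr w) l ≤ d.hi
      · rw [if_neg (fun h => hA h.1), if_pos ⟨hA', hchi⟩, zero_sub, norm_neg, Pw_norm]
        by_cases hOm : d.Om (v, w)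
        · have hdt0 : 0 < dt v w := by
            have : (0 : ℝ) < (dt v w : ℝ) := by linarith [hA'.1, hDd.1]
            exact_mod_cast this
          have hcl : |(dt v w : ℝ) - d.lo| ≤ d.Del ∨ |(dt v w : ℝ) - d.hi| ≤ d.Del := by
            by_cases h2 : (d.lo : ℝ) < (dt v w : ℝ)
            · have h3 : (d.hi : ℝ) < (dt v w : ℝ) := by
                by_contra h4
                exact hA ⟨h2, not_lt.1 h4⟩
              right
              rw [abs_le]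
              constructor <;> linarith [hA'.1, hA'.2, hDd.1, hDd.2]
            · left
              have h3 := not_lt.1 h2
              rw [abs_le]
              constructor <;> linarith [hA'.1, hA'.2, hDd.1, hDd.2]
          refine le_trans ?_ (Pw_er2 d v w hOm hdt0 hcl)
          apply div_le_div_of_nonneg_right _ hY2.le
          exact g_le d θ ht1 ht2 _ _
        · have hg0 : d.g θ (d.rr v) (d.rr w) = 0 := by
            by_contra h
            exact hOm (Om_g d θ l hl v w hv hw h)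
          rw [hg0, abs_zero, zero_div]
          exact her
      · rw [if_neg (fun h => hA h.1), if_neg (fun h => hA' h.1), sub_zero, norm_zero]
        exact her
  · rw [if_neg (fun h => hchi h.2), if_neg (fun h => hchi h.2), sub_zero, norm_zero]
    exact her

end Pool.Agent.Lib.MP_d57abb_nt.GA.MS
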