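import Mathlib
import Pool.Agent.Lib.MP_d57abb_nt.GA.MS.Pw
import Pool.Agent.Lib.MP_d57abb_nt.GA.TA.Line

/-!
# the total error

For every natural `m ≥ 1` the number of `x ∈ VS × VS` with `Om x`, `dt x.1 x.2 = m` is `≤ 32 (4 · 2^(k+2) + 1) Y² ≤ 2^(k+10) Y²`: these `x` are in `TA.pp2 N m` for `N = ⌊(S Y)²⌋₊` (coordinates between `0` and `⌊(S Y)²⌋`, `mem_VV`), so `TA.card_pairs` with `X = Y`, `Y = 2^(k+2)` applies.
First part of `er`: `m` runs over `1, …, P`: total `≤ P · 2^(k+10) Y² · 2^(k+4) (B + L)/(n Y²) = 2^(2k+14) (B + L) P/n`.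
Second part: the positive integers `m` with `|m - P/2| ≤ Del` or `|m - P| ≤ Del` are at most `2 (2 Del + 1)` (an interval of length `2 Del` contains at most `2 Del + 1` integers): total `≤ (4 Del + 2) 2^(k+10) Y² · 2 B/Y² = 2^(k+11) B (4 Del + 2)`, `4 Del + 2 = 2^(2k+12) (P/n + P/b) + 6`:
`≤ 2^(3k+23) B (P/n + P/b) + 2^(k+14) B`.  Sum `≤ 2^(3k+24) (B + L) (P/n + P/b + 1)`.
-/

open Finset

namespace Pool.Agent.Lib.MP_d57abb_nt.GA.MS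

variable [Pool.Agent.Lib.MP_d57abb_nt.GA.TA.Lab]

open Pool.Agent.Lib.MP_d57abb_nt Pool.Agent.Lib.MP_d57abb_nt.GA.TA

private theorem Er_fib (d : Dt) (s : Finset ((ℤ × ℤ) × (ℤ × ℤ)))
    (hs : ∀ x ∈ s, x ∈ d.VS ×ˢ d.VS ∧ d.Om x ∧ 0 < dt x.1 x.2) (m : ℤ) :
    ((s.filter (fun x => dt x.1 x.2 = m)).card : ℝ) ≤ 2 ^ (d.k + 10) * d.Y ^ 2 := by
  classical
  have hY := d.Y_pos
  obtain ⟨N, hN⟩ : ∃ N : ℕ, N = ⌊(d.S * d.Y) ^ 2⌋.toNat := ⟨_, rfl⟩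
  have h1 := card_pairs N m.toNat hY (Y := 2 ^ (d.k + 2)) (by positivity)
  have h2 : s.filter (fun x => dt x.1 x.2 = m) ⊆ (pp2 N m.toNat).filter
      (fun x => d.Y / 4 ≤ ll x.1 ∧ (ll x.1 : ℝ) ≤ 4 * d.Y ∧ (ll x.2 : ℝ) ≤ 2 ^ (d.k + 2) * d.Y) := by
    intro x hx
    obtain ⟨hx1, hx2⟩ := mem_filter.1 hx
    obtain ⟨hV, hO, h0⟩ := hs x hx1
    obtain ⟨hv, hw⟩ := mem_product.1 hV
    unfold Dt.VS at hv hw
    rw [mem_VV] at hv hw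
    obtain ⟨⟨⟨a1, a2⟩, a3, a4⟩, a5, -⟩ := hv
    obtain ⟨⟨⟨b1, b2⟩, b3, b4⟩, b5, -⟩ := hw
    have hle : ⌊(d.S * d.Y) ^ 2⌋ ≤ (N : ℤ) := by
      rw [hN]
      exact Int.self_le_toNat _
    refine mem_filter.2 ⟨?_, hO⟩
    unfold pp2 Bx
    rw [mem_filter, mem_product, mem_product, mem_product]
    simp only [mem_Icc]
    refine ⟨⟨⟨⟨by omega, by omega⟩, by omega, by omega⟩, ⟨by omega, by omega⟩, by omega, by omega⟩,
      ?_, a5, b5⟩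
    omega
  have h3 : ((s.filter (fun x => dt x.1 x.2 = m)).card : ℝ) ≤ (((pp2 N m.toNat).filter
      (fun x => d.Y / 4 ≤ ll x.1 ∧ (ll x.1 : ℝ) ≤ 4 * d.Y ∧
        (ll x.2 : ℝ) ≤ 2 ^ (d.k + 2) * d.Y)).card : ℝ) := by
    exact_mod_cast card_le_card h2
  have h4 : 32 * (4 * (2 : ℝ) ^ (d.k + 2) + 1) * d.Y ^ 2 ≤ 2 ^ (d.k + 10) * d.Y ^ 2 := by
    refine mul_le_mul_of_nonneg_right ?_ (by positivity)
    have e1 : (2 : ℝ) ^ (d.k + 10) = 256 * 2 ^ (d.k + 2) := by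
      rw [show d.k + 10 = (d.k + 2) + 8 by ring, pow_add]
      norm_num
      ring
    have e2 : (1 : ℝ) ≤ 2 ^ (d.k + 2) := one_le_pow₀ (by norm_num)
    rw [e1]
    linarith
  exact h3.trans (h1.trans h4)

private theorem Er_card (d : Dt) (s : Finset ((ℤ × ℤ) × (ℤ × ℤ))) (I : Finset ℤ)
    (hs : ∀ x ∈ s, x ∈ d.VS ×ˢ d.VS ∧ d.Om x ∧ 0 < dt x.1 x.2) (hI : ∀ x ∈ s, dt x.1 x.2 ∈ I) :
    (s.card : ℝ) ≤ 2 ^ (d.k + 10) * d.Y ^ 2 * I.card := by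
  classical
  have h0 : (0 : ℝ) ≤ 2 ^ (d.k + 10) * d.Y ^ 2 := by positivity
  have h1 := Finset.card_le_mul_card_image_of_maps_to (f := fun x => dt x.1 x.2) (s := s) (t := I) hI
    ⌊(2 : ℝ) ^ (d.k + 10) * d.Y ^ 2⌋₊ (fun m _ => Nat.le_floor (Er_fib d s hs m))
  have h2 : (s.card : ℝ) ≤ ((⌊(2 : ℝ) ^ (d.k + 10) * d.Y ^ 2⌋₊ * I.card : ℕ) : ℝ) := by
    exact_mod_cast h1
  rw [Nat.cast_mul] at h2
  exact h2.trans (mul_le_mul_of_nonneg_right (Nat.floor_le h0) (by positivity))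

private theorem Er_int (a D : ℝ) (hD : 0 ≤ D) :
    ((Icc ⌈a - D⌉ ⌊a + D⌋).card : ℝ) ≤ 2 * D + 1 := by
  rw [Int.card_Icc]
  have h2 : (((⌊a + D⌋ + 1 - ⌈a - D⌉).toNat : ℤ) : ℝ) ≤ 2 * D + 1 := by
    rw [Int.toNat_eq_max]
    push_cast
    refine max_le ?_ (by linarith)
    have h3 := Int.floor_le (a + D)
    have h4 := Int.le_ceil (a - D)
    linarith
  exact_mod_cast h2

private theorem Er_mem {a D : ℝ} {m : ℤ} (h : |(m : ℝ) - a| ≤ D) : m ∈ Icc ⌈a - D⌉ ⌊a + D⌋ := by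
  rw [abs_le] at h
  rw [mem_Icc]
  exact ⟨Int.ceil_le.2 (by linarith), Int.le_floor.2 (by linarith)⟩

theorem er_sum (d : Dt) : ∑ x ∈ d.VS ×ˢ d.VS, d.er x ≤
    2 ^ (3 * d.k + 24) * (d.B + d.L) * ((d.P : ℝ) / d.n + (d.P : ℝ) / d.b + 1) := by
  classical
  have hY := d.Y_pos
  have hY2 : 0 < d.Y ^ 2 := by positivity
  have hn : (0 : ℝ) < d.n := by exact_mod_cast d.n_pos
  have hb : (0 : ℝ) < d.b := by exact_mod_cast d.b_pos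
  have hB := d.B1
  have hL := d.L0
  have hP : (0 : ℝ) ≤ d.P := by positivity
  have hDel := (Del_le d).1
  obtain ⟨s1, hs1⟩ : ∃ s1, s1 = (d.VS ×ˢ d.VS).filter
    (fun x => d.Om x ∧ 0 < dt x.1 x.2 ∧ dt x.1 x.2 ≤ (d.P : ℤ)) := ⟨_, rfl⟩
  obtain ⟨s2, hs2⟩ : ∃ s2, s2 = (d.VS ×ˢ d.VS).filter
    (fun x => d.Om x ∧ 0 < dt x.1 x.2 ∧ (|(dt x.1 x.2 : ℝ) - d.lo| ≤ d.Del ∨
      |(dt x.1 x.2 : ℝ) - d.hi| ≤ d.Del)) := ⟨_, rfl⟩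
  have hsum : ∑ x ∈ d.VS ×ˢ d.VS, d.er x =
      s1.card * (2 ^ (d.k + 4) * (d.B + d.L) / (d.n * d.Y ^ 2)) + s2.card * (2 * d.B / d.Y ^ 2) := by
    unfold Dt.er
    rw [Finset.sum_add_distrib, ← Finset.sum_filter, ← Finset.sum_filter, sum_const, sum_const,
      nsmul_eq_mul, nsmul_eq_mul, hs1, hs2]
  have hc1 : (s1.card : ℝ) ≤ 2 ^ (d.k + 10) * d.Y ^ 2 * d.P := by
    have h1 := Er_card d s1 (Icc 1 (d.P : ℤ)) (fun x hx => by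
      rw [hs1, mem_filter] at hx
      exact ⟨hx.1, hx.2.1, hx.2.2.1⟩) (fun x hx => by
      rw [hs1, mem_filter] at hx
      rw [mem_Icc]
      exact ⟨by have := hx.2.2.1; omega, hx.2.2.2⟩)
    have h2 : (Icc 1 (d.P : ℤ)).card = d.P := by
      rw [Int.card_Icc]
      omega
    rw [h2] at h1
    exact h1
  have hc2 : (s2.card : ℝ) ≤ 2 ^ (d.k + 10) * d.Y ^ 2 * (2 * (2 * d.Del + 1)) := by
    have h1 := Er_card d s2 (Icc ⌈(d.lo : ℝ) - d.Del⌉ ⌊(d.lo : ℝ) + d.Del⌋ ∪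
      Icc ⌈(d.hi : ℝ) - d.Del⌉ ⌊(d.hi : ℝ) + d.Del⌋) (fun x hx => by
      rw [hs2, mem_filter] at hx
      exact ⟨hx.1, hx.2.1, hx.2.2.1⟩) (fun x hx => by
      rw [hs2, mem_filter] at hx
      rw [mem_union]
      exact hx.2.2.2.imp (fun h => Er_mem h) (fun h => Er_mem h))
    refine h1.trans (mul_le_mul_of_nonneg_left ?_ (by positivity))
    have h2 : (((Icc ⌈(d.lo : ℝ) - d.Del⌉ ⌊(d.lo : ℝ) + d.Del⌋ ∪
      Icc ⌈(d.hi : ℝ) - d.Del⌉ ⌊(d.hi : ℝ) + d.Del⌋).card : ℕ) : ℝ) ≤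
      ((Icc ⌈(d.lo : ℝ) - d.Del⌉ ⌊(d.lo : ℝ) + d.Del⌋).card : ℝ) +
        ((Icc ⌈(d.hi : ℝ) - d.Del⌉ ⌊(d.hi : ℝ) + d.Del⌋).card : ℝ) := by
      exact_mod_cast card_union_le _ _
    have h3 := Er_int (d.lo : ℝ) d.Del hDel
    have h4 := Er_int (d.hi : ℝ) d.Del hDel
    linarith
  rw [hsum]
  have hk1 : (2 : ℝ) ^ (2 * d.k + 14) ≤ 2 ^ (3 * d.k + 23) :=
    pow_le_pow_right₀ (by norm_num) (by omega)
  have hk2 : (2 : ℝ) ^ (d.k + 14) ≤ 2 ^ (3 * d.k + 24) :=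
    pow_le_pow_right₀ (by norm_num) (by omega)
  have hk3 : (2 : ℝ) ^ (3 * d.k + 24) = 2 * 2 ^ (3 * d.k + 23) := by ring
  have hp1 : s1.card * (2 ^ (d.k + 4) * (d.B + d.L) / (d.n * d.Y ^ 2)) ≤
      2 ^ (3 * d.k + 23) * (d.B + d.L) * ((d.P : ℝ) / d.n) := by
    calc (s1.card : ℝ) * (2 ^ (d.k + 4) * (d.B + d.L) / (d.n * d.Y ^ 2)) ≤
        2 ^ (d.k + 10) * d.Y ^ 2 * d.P * (2 ^ (d.k + 4) * (d.B + d.L) / (d.n * d.Y ^ 2)) :=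
          mul_le_mul_of_nonneg_right hc1 (by positivity)
      _ = 2 ^ (2 * d.k + 14) * (d.B + d.L) * ((d.P : ℝ) / d.n) := by
          field_simp
          ring
      _ ≤ 2 ^ (3 * d.k + 23) * (d.B + d.L) * ((d.P : ℝ) / d.n) := by
          refine mul_le_mul_of_nonneg_right ?_ (by positivity)
          exact mul_le_mul_of_nonneg_right hk1 (by linarith)
  have hp2 : s2.card * (2 * d.B / d.Y ^ 2) ≤
      2 ^ (3 * d.k + 23) * d.B * ((d.P : ℝ) / d.n + (d.P : ℝ) / d.b) + 2 ^ (d.k + 14) * d.B := by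
    calc (s2.card : ℝ) * (2 * d.B / d.Y ^ 2) ≤
        2 ^ (d.k + 10) * d.Y ^ 2 * (2 * (2 * d.Del + 1)) * (2 * d.B / d.Y ^ 2) :=
          mul_le_mul_of_nonneg_right hc2 (by positivity)
      _ = 2 ^ (d.k + 11) * d.B * (4 * d.Del + 2) := by
          field_simp
          ring
      _ = 2 ^ (3 * d.k + 23) * d.B * ((d.P : ℝ) / d.n + (d.P : ℝ) / d.b) +
          6 * (2 ^ (d.k + 11) * d.B) := by
          unfold Dt.Del
          ring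
      _ ≤ 2 ^ (3 * d.k + 23) * d.B * ((d.P : ℝ) / d.n + (d.P : ℝ) / d.b) + 2 ^ (d.k + 14) * d.B := by
          have e1 : (2 : ℝ) ^ (d.k + 14) = 8 * 2 ^ (d.k + 11) := by
            rw [show d.k + 14 = (d.k + 11) + 3 by ring, pow_add]
            norm_num
            ring
          have e2 : (0 : ℝ) ≤ 2 ^ (d.k + 11) * d.B := by positivity
          rw [e1]
          linarith
  have hPn : 0 ≤ (d.P : ℝ) / d.n := by positivity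
  have hPb : 0 ≤ (d.P : ℝ) / d.b := by positivity
  have hA0 : (0 : ℝ) ≤ 2 ^ (3 * d.k + 23) := by positivity
  have hBL : d.B ≤ d.B + d.L := by linarith
  have hp3 : 2 ^ (3 * d.k + 23) * d.B * ((d.P : ℝ) / d.n + (d.P : ℝ) / d.b) ≤
      2 ^ (3 * d.k + 23) * (d.B + d.L) * ((d.P : ℝ) / d.n + (d.P : ℝ) / d.b) := by
    refine mul_le_mul_of_nonneg_right ?_ (by linarith)
    exact mul_le_mul_of_nonneg_left hBL hA0
  have hp4 : 2 ^ (d.k + 14) * d.B ≤ 2 ^ (3 * d.k + 24) * (d.B + d.L) :=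
    mul_le_mul hk2 hBL (by linarith) (by positivity)
  have hp5 : (0 : ℝ) ≤ 2 ^ (3 * d.k + 23) * (d.B + d.L) * ((d.P : ℝ) / d.b) := by positivity
  have hfin : 2 ^ (3 * d.k + 24) * (d.B + d.L) * ((d.P : ℝ) / d.n + (d.P : ℝ) / d.b + 1) =
      2 ^ (3 * d.k + 23) * (d.B + d.L) * ((d.P : ℝ) / d.n) +
      2 ^ (3 * d.k + 23) * (d.B + d.L) * ((d.P : ℝ) / d.n + (d.P : ℝ) / d.b) +
      2 ^ (3 * d.k + 24) * (d.B + d.L) +
      2 ^ (3 * d.k + 23) * (d.B + d.L) * ((d.P : ℝ) / d.b) := by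
    rw [hk3]
    ring
  rw [hfin]
  linarith

end Pool.Agent.Lib.MP_d57abb_nt.GA.MS
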