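import Mathlib

/-!
# integration over the window

`win_int`: for a finite set `S`, `a : ι → ℝ`, `F : ι → E` (`E = ℝ` or `ℂ`): the function `θ ↦ ∑_{x ∈ S, θ ≤ a x < θ + h} F x` is `∑_{x ∈ S} indicator (Ioc (a x - h) (a x)) (fun _ => F x) θ` (`θ ≤ a x ∧ a x < θ + h ↔ θ ∈ Ioc (a x - h) (a x)`), so it is integrable on `ℝ` with integral `h ∑ F x`
(`MeasureTheory.integral_finsetSum`, `integral_indicator`, `Real.volume_Ioc`, `setIntegral_const`).
`int_main`: integrate the hypothesis `H` over `θ ∈ ℝ`: `h ‖∑ K‖ = ‖∫ ∑_{x ∈ window} K x‖ ≤ ∫ ‖..‖ ≤ ∫ (∑_{window} er x + C ∑_{l < Lm} (V θ + V (θ + l h))) = h ∑ er x + C ∑_{l < Lm} 2 ∫ V ≤ h ∑ er + C (2 Lm M)` (translation invariance `MeasureTheory.integral_add_right_eq_self`,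
`Integrable.comp_add_right`; `norm_integral_le_integral_norm`, `integral_mono`).
-/

open Finset MeasureTheory

namespace Pool.Agent.Lib.MP_d57abb_nt.GA.MS

open Classical in
private theorem IntA_gen {ι : Type} {E : Type*} [NormedAddCommGroup E] [NormedSpace ℝ E]
    [CompleteSpace E] (S : Finset ι) (a : ι → ℝ) (F : ι → E) (h : ℝ) (hh : 0 ≤ h) :
    Integrable (fun θ : ℝ => ∑ x ∈ S.filter (fun x => θ ≤ a x ∧ a x < θ + h), F x) ∧
      ∫ θ : ℝ, ∑ x ∈ S.filter (fun x => θ ≤ a x ∧ a x < θ + h), F x = h • ∑ x ∈ S, F x := by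
  have e : (fun θ : ℝ => ∑ x ∈ S.filter (fun x => θ ≤ a x ∧ a x < θ + h), F x) =
      fun θ => ∑ x ∈ S, (Set.Ioc (a x - h) (a x)).indicator (fun _ => F x) θ := by
    funext θ
    rw [Finset.sum_filter]
    refine sum_congr rfl fun x _ => ?_
    rw [Set.indicator_apply]
    by_cases hx : θ ≤ a x ∧ a x < θ + h
    · rw [if_pos hx, if_pos (Set.mem_Ioc.2 ⟨by linarith [hx.2], hx.1⟩)]
    · rw [if_neg hx, if_neg]
      intro h1
      rw [Set.mem_Ioc] at h1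
      exact hx ⟨h1.2, by linarith [h1.1]⟩
  have hint : ∀ x ∈ S, Integrable
      (fun θ : ℝ => (Set.Ioc (a x - h) (a x)).indicator (fun _ => F x) θ) := by
    intro x _
    refine (integrable_indicator_iff measurableSet_Ioc).2 ?_
    exact integrableOn_const (by rw [Real.volume_Ioc]; exact ENNReal.ofReal_ne_top)
  rw [e]
  refine ⟨integrable_finsetSum _ hint, ?_⟩
  rw [integral_finsetSum _ hint, Finset.smul_sum]
  refine sum_congr rfl fun x _ => ?_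
  rw [integral_indicator measurableSet_Ioc, setIntegral_const,
    Real.volume_real_Ioc_of_le (by linarith)]
  congr 1
  ring

open Classical in
theorem win_int {ι : Type} (S : Finset ι) (a : ι → ℝ) (F : ι → ℝ) (h : ℝ) (hh : 0 ≤ h) :
    Integrable (fun θ : ℝ => ∑ x ∈ S.filter (fun x => θ ≤ a x ∧ a x < θ + h), F x) ∧
      ∫ θ : ℝ, ∑ x ∈ S.filter (fun x => θ ≤ a x ∧ a x < θ + h), F x = h * ∑ x ∈ S, F x := by
  have h1 := IntA_gen S a F h hh
  refine ⟨h1.1, ?_⟩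
  rw [h1.2, smul_eq_mul]

open Classical in
theorem win_intC {ι : Type} (S : Finset ι) (a : ι → ℝ) (F : ι → ℂ) (h : ℝ) (hh : 0 ≤ h) :
    Integrable (fun θ : ℝ => ∑ x ∈ S.filter (fun x => θ ≤ a x ∧ a x < θ + h), F x) ∧
      ∫ θ : ℝ, ∑ x ∈ S.filter (fun x => θ ≤ a x ∧ a x < θ + h), F x = (h : ℂ) * ∑ x ∈ S, F x := by
  have h1 := IntA_gen S a F h hh
  refine ⟨h1.1, ?_⟩
  rw [h1.2, Complex.real_smul]

open Classical in
theorem int_main {ι : Type} (S : Finset ι) (a : ι → ℝ) (K : ι → ℂ) (er : ι → ℝ) (h C M : ℝ) (hh : 0 ≤ h)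
    (hC : 0 ≤ C) (V : ℝ → ℝ) (hV : Integrable V) (hM : ∫ θ, V θ ≤ M) (Lm : ℕ)
    (H : ∀ θ : ℝ, ‖∑ x ∈ S.filter (fun x => θ ≤ a x ∧ a x < θ + h), K x‖ ≤
      ∑ x ∈ S.filter (fun x => θ ≤ a x ∧ a x < θ + h), er x + C * ∑ l ∈ range Lm, (V θ + V (θ + l * h))) :
    h * ‖∑ x ∈ S, K x‖ ≤ h * ∑ x ∈ S, er x + C * (2 * Lm * M) := by
  have h1 := win_intC S a K h hh
  have h2 := win_int S a er h hh
  have hV' : ∀ l : ℕ, Integrable (fun θ => V (θ + l * h)) := fun l => hV.comp_add_right _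
  have hVi : ∀ l : ℕ, ∫ θ, V (θ + l * h) = ∫ θ, V θ := fun l =>
    integral_add_right_eq_self V (l * h)
  have hs : ∀ l ∈ range Lm, Integrable (fun θ => V θ + V (θ + l * h)) := fun l _ =>
    hV.add (hV' l)
  have hs' : Integrable (fun θ => ∑ l ∈ range Lm, (V θ + V (θ + l * h))) :=
    integrable_finsetSum _ hs
  have hg := h2.1.add (hs'.const_mul C)
  have h3 : ∫ θ : ℝ, ‖∑ x ∈ S.filter (fun x => θ ≤ a x ∧ a x < θ + h), K x‖ ≤
      ∫ θ : ℝ, (∑ x ∈ S.filter (fun x => θ ≤ a x ∧ a x < θ + h), er x +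
        C * ∑ l ∈ range Lm, (V θ + V (θ + l * h))) :=
    integral_mono h1.1.norm hg H
  have h4 : ∫ θ : ℝ, (∑ x ∈ S.filter (fun x => θ ≤ a x ∧ a x < θ + h), er x +
      C * ∑ l ∈ range Lm, (V θ + V (θ + l * h))) =
      h * ∑ x ∈ S, er x + C * (Lm * (2 * ∫ θ, V θ)) := by
    rw [integral_add h2.1 (hs'.const_mul C), h2.2, integral_const_mul, integral_finsetSum _ hs]
    congr 2
    have h5 : ∀ l ∈ range Lm, ∫ θ, (V θ + V (θ + l * h)) = 2 * ∫ θ, V θ := by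
      intro l _
      rw [integral_add hV (hV' l), hVi l]
      ring
    rw [sum_congr rfl h5, sum_const, card_range, nsmul_eq_mul]
  have h6 : h * ‖∑ x ∈ S, K x‖ ≤
      ∫ θ : ℝ, ‖∑ x ∈ S.filter (fun x => θ ≤ a x ∧ a x < θ + h), K x‖ := by
    have h7 := norm_integral_le_integral_norm (μ := volume)
      (fun θ : ℝ => ∑ x ∈ S.filter (fun x => θ ≤ a x ∧ a x < θ + h), K x)
    rw [h1.2, norm_mul, Complex.norm_real, Real.norm_of_nonneg hh] at h7
    exact h7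
  have h8 : C * (Lm * (2 * ∫ θ, V θ)) ≤ C * (2 * Lm * M) := by
    refine mul_le_mul_of_nonneg_left ?_ hC
    have h9 : (Lm : ℝ) * (2 * ∫ θ, V θ) ≤ Lm * (2 * M) :=
      mul_le_mul_of_nonneg_left (mul_le_mul_of_nonneg_left hM (by norm_num)) (Nat.cast_nonneg _)
    linarith
  rw [h4] at h3
  linarith

end Pool.Agent.Lib.MP_d57abb_nt.GA.MS
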