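import Mathlib
import Pool.Agent.Lib.MP_d57abb_nt.GA.MS.IntA
import Pool.Agent.Lib.MP_d57abb_nt.GA.MS.Dd
import Pool.Agent.Lib.MP_d57abb_nt.GA.MS.Sct

/-!
# the mean square of the sums over the classes

`sq_int`: for a finite `S`, `a`, `F : ι → ℂ`: `θ ↦ ‖∑_{x ∈ S, θ ≤ a x < θ + h} F x‖²` is integrable on `ℝ` (a bounded measurable function with bounded support: it is a finite sum of indicators of bounded intervals, `‖∑ ..‖² = ∑_x ∑_y re (F x conj (F y)) 1 1`; or: the sum is measurable (finite sum of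
measurable functions), bounded, and zero outside a bounded interval: `Integrable.mono'` with a constant on an interval).
`U_TX`: for `1 ≤ r ≤ R`: `U θ r c = TX z (Xr r) θ h W c - TX z (Xr (r-1)) θ h W c` (as `wn X θ h ⊆ wn X' θ h` for `X ≤ X'`, `Xr r ≤ (S Y)²`, and for `v ∈ VS`: `rr v = r ↔ Xr (r-1) < nm v ≤ Xr r`, since `rr v = ⌈n √(nm v)/Y⌉₊`: `Nat.ceil_eq_iff`; `Xr r = (r Y/n)²`, `√(nm v) ≤ r Y/n ↔ nm v ≤ Xr r`;
`wd θ = wn ((S Y)²) θ h`; note `⌊X⌋` monotone in the definition of `VV`: `nm v ≤ X` and `v.1 ≥ 1`, `v.2 ≥ 0` imply `v.1, v.2 ≤ nm v ≤ X`, so `v.1, v.2 ≤ ⌊X⌋`).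
`T_int`: for `1 ≤ r ≤ R`: `∫_ℝ ‖TX z (Xr r) θ h W c‖² dθ ≤ ε A² + h (h Xr + 1)² ≤ ε (P S²/b)² + h (P S²/b + 1)²`: the integrand vanishes for `θ ≤ -h` and `θ ≥ 2 log al` (all `an v ∈ [0, 2 log al)`), on `[0, 2 log al]` it is the hypothesis `hMR` (`A = P r²/(b n²)`, `A/Xr r = h`), on `[-h, 0]` the norm is
at most `card (wn ..) ≤ h Xr + 1` (`card_wn`, `‖aa‖ = 1`), and `h Xr r = P r²/(b n²) ≤ P S²/b`.  `Xr 0 = 0`: `VV 0 = ∅`, `TX = 0`.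
`Vt_int`: `‖U‖² ≤ 2 ‖T_r‖² + 2 ‖T_(r-1)‖²`, so `∫ ‖U θ r c‖² ≤ 4 (ε (P S²/b)² + h (P S²/b + 1)²)`; sum over `r ∈ Icc 1 R`, `c ∈ cs` (`R W²` terms).
-/

open Finset MeasureTheory

namespace Pool.Agent.Lib.MP_d57abb_nt.GA.MS

variable [Pool.Agent.Lib.MP_d57abb_nt.GA.TA.Lab]

open Pool.Agent.Lib.MP_d57abb_nt Pool.Agent.Lib.MP_d57abb_nt.GA.TA

open Classical in
theorem sq_int {ι : Type} (S : Finset ι) (a : ι → ℝ) (F : ι → ℂ) (h : ℝ) (hh : 0 ≤ h) :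
    Integrable (fun θ : ℝ => ‖∑ x ∈ S.filter (fun x => θ ≤ a x ∧ a x < θ + h), F x‖ ^ 2) := by
  have h1 := (win_intC S a F h hh).1
  refine Integrable.mono' ((h1.norm).const_mul (∑ x ∈ S, ‖F x‖)) (h1.aestronglyMeasurable.norm.pow 2) ?_
  refine Filter.Eventually.of_forall fun θ => ?_
  rw [Real.norm_of_nonneg (by positivity), sq]
  refine mul_le_mul_of_nonneg_right ?_ (norm_nonneg _)
  refine (norm_sum_le _ _).trans ?_
  exact Finset.sum_le_sum_of_subset_of_nonneg (Finset.filter_subset _ _) fun _ _ _ => norm_nonneg _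

/-- the coordinates are bounded by the norm -/
private theorem IntB_mem {X : ℝ} {v : ℤ × ℤ} :
    v ∈ VV X ↔ ((1 ≤ v.1 ∧ 0 ≤ v.2) ∧ IsCoprime v.1 v.2) ∧ (nm v : ℝ) ≤ X := by
  rw [mem_VV]
  constructor
  · rintro ⟨⟨⟨h1, -⟩, ⟨h2, -⟩⟩, h3, h4⟩
    exact ⟨⟨⟨h1, h2⟩, h3⟩, h4⟩
  · rintro ⟨⟨⟨h1, h2⟩, h3⟩, h4⟩
    have h5 : v.1 ≤ nm v := by
      unfold nm
      nlinarith [mul_nonneg (by linarith : (0 : ℤ) ≤ v.1) h2]
    have h6 : v.2 ≤ nm v := by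
      unfold nm
      nlinarith [mul_nonneg (by linarith : (0 : ℤ) ≤ v.1 - 1) h2, sq_nonneg v.1]
    have h7 : nm v ≤ ⌊X⌋ := Int.le_floor.2 h4
    exact ⟨⟨⟨h1, h5.trans h7⟩, ⟨h2, h6.trans h7⟩⟩, h3, h4⟩

private theorem IntB_rr (d : Dt) (v : ℤ × ℤ) (h1 : 1 ≤ v.1) (h2 : 0 ≤ v.2) (r : ℕ) (hr : 1 ≤ r) :
    d.rr v = r ↔ d.Xr (r - 1) < (nm v : ℝ) ∧ (nm v : ℝ) ≤ d.Xr r := by
  have hn : (0 : ℝ) < d.n := by exact_mod_cast d.n_pos
  have hY := d.Y_pos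
  have hN := nm_ge_one v h1 h2
  unfold Dt.rr Dt.Xr
  rw [Nat.ceil_eq_iff (by omega)]
  have e1 : ((r - 1 : ℕ) : ℝ) < (d.n : ℝ) * √(nm v : ℝ) / d.Y ↔ (((r - 1 : ℕ) : ℝ) * d.Y / d.n) ^ 2 < (nm v : ℝ) := by
    rw [← Real.lt_sqrt (by positivity), lt_div_iff₀ hY, div_lt_iff₀ hn, mul_comm (√(nm v : ℝ))]
  have e2 : (d.n : ℝ) * √(nm v : ℝ) / d.Y ≤ (r : ℝ) ↔ (nm v : ℝ) ≤ ((r : ℝ) * d.Y / d.n) ^ 2 := by
    rw [← Real.sqrt_le_left (by positivity), div_le_iff₀ hY, le_div_iff₀ hn, mul_comm (√(nm v : ℝ))]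
  rw [e1, e2]

private theorem IntB_Xr (d : Dt) (r : ℕ) (h2 : r ≤ d.R) : d.Xr r ≤ (d.S * d.Y) ^ 2 := by
  have hn : (0 : ℝ) < d.n := by exact_mod_cast d.n_pos
  have hY := d.Y_pos
  unfold Dt.Xr
  refine pow_le_pow_left₀ (by positivity) ?_ 2
  rw [div_le_iff₀ hn]
  have h3 : (r : ℝ) ≤ d.S * d.n := by
    have h4 : (r : ℝ) ≤ d.R := by exact_mod_cast h2
    refine h4.trans (le_of_eq ?_)
    unfold Dt.R Dt.S
    push_cast
    ring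
  calc (r : ℝ) * d.Y ≤ d.S * d.n * d.Y := mul_le_mul_of_nonneg_right h3 hY.le
    _ = d.S * d.Y * d.n := by ring

theorem U_TX (d : Dt) (θ : ℝ) (r : ℕ) (h1 : 1 ≤ r) (h2 : r ≤ d.R) (c : ℤ × ℤ) :
    d.U θ r c = TX d.z (d.Xr r) θ d.h d.W c - TX d.z (d.Xr (r - 1)) θ d.h d.W c := by
  classical
  have hn : (0 : ℝ) < d.n := by exact_mod_cast d.n_pos
  have hY := d.Y_pos
  have hX1 : d.Xr (r - 1) ≤ d.Xr r := by
    unfold Dt.Xr
    refine pow_le_pow_left₀ (by positivity) ?_ 2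
    refine div_le_div_of_nonneg_right (mul_le_mul_of_nonneg_right ?_ hY.le) hn.le
    exact_mod_cast Nat.sub_le r 1
  have hX2 := IntB_Xr d r h2
  have hsub : (wn (d.Xr (r - 1)) θ d.h).filter (fun v => cls d.W v = c) ⊆
      (wn (d.Xr r) θ d.h).filter (fun v => cls d.W v = c) := by
    intro v hv
    obtain ⟨h3, h4⟩ := Finset.mem_filter.1 hv
    obtain ⟨h5, h6⟩ := mem_wn.1 h3
    obtain ⟨h7, h8⟩ := IntB_mem.1 h5
    exact Finset.mem_filter.2 ⟨mem_wn.2 ⟨IntB_mem.2 ⟨h7, h8.trans hX1⟩, h6⟩, h4⟩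
  have hset : (wn (d.Xr r) θ d.h).filter (fun v => cls d.W v = c) \
      (wn (d.Xr (r - 1)) θ d.h).filter (fun v => cls d.W v = c) =
      (d.wd θ).filter (fun v => d.rr v = r ∧ cls d.W v = c) := by
    ext v
    rw [Finset.mem_sdiff, Finset.mem_filter, Finset.mem_filter, Finset.mem_filter, mem_wn, mem_wn]
    unfold Dt.wd
    rw [mem_wn, IntB_mem, IntB_mem, IntB_mem]
    constructor
    · rintro ⟨⟨⟨⟨h3, h4⟩, h5⟩, h6⟩, h7⟩
      refine ⟨⟨⟨h3, h4.trans hX2⟩, h5⟩, ?_, h6⟩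
      rw [IntB_rr d v h3.1.1 h3.1.2 r h1]
      refine ⟨?_, h4⟩
      by_contra hcon
      exact h7 ⟨⟨⟨h3, not_lt.1 hcon⟩, h5⟩, h6⟩
    · rintro ⟨⟨⟨h3, h4⟩, h5⟩, h6, h7⟩
      rw [IntB_rr d v h3.1.1 h3.1.2 r h1] at h6
      refine ⟨⟨⟨⟨h3, h6.2⟩, h5⟩, h7⟩, ?_⟩
      rintro ⟨⟨⟨-, h8⟩, -⟩, -⟩
      linarith [h6.1]
  unfold Dt.U TX
  rw [← hset, eq_sub_iff_add_eq]
  exact Finset.sum_sdiff hsub

open Classical in
private theorem IntB_TX (z : ℂ) (X h θ : ℝ) (W : ℕ) (c : ℤ × ℤ) :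
    TX z X θ h W c = ∑ v ∈ ((VV X).filter (fun v => cls W v = c)).filter (fun v => θ ≤ an v ∧ an v < θ + h), aa z v := by
  unfold TX wn
  rw [Finset.filter_filter, Finset.filter_filter]
  refine Finset.sum_congr (Finset.filter_congr fun v _ => ?_) fun _ _ => rfl
  exact and_comm

private theorem IntB_aa {z : ℂ} (hz : ‖z‖ = 1) (v : ℤ × ℤ) : ‖aa z v‖ = 1 := by
  unfold aa
  rw [norm_pow, hz, one_pow]

private theorem IntB_card {z : ℂ} (hz : ‖z‖ = 1) (X h θ : ℝ) (W : ℕ) (c : ℤ × ℤ) (hh : 0 ≤ h) (hX : 0 ≤ X) :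
    ‖TX z X θ h W c‖ ≤ h * X + 1 := by
  classical
  refine le_trans ?_ (card_wn X θ h hh hX)
  unfold TX
  refine (norm_sum_le _ _).trans ?_
  rw [Finset.sum_congr rfl fun v _ => IntB_aa hz v, Finset.sum_const, nsmul_eq_mul, mul_one]
  exact_mod_cast Finset.card_le_card (Finset.filter_subset _ _)

private theorem IntB_zero {z : ℂ} (X h θ : ℝ) (W : ℕ) (c : ℤ × ℤ)
    (hθ : θ ∉ Set.Ioc (-h) (2 * Real.log al)) : TX z X θ h W c = 0 := by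
  classical
  unfold TX
  refine Finset.sum_eq_zero fun v hv => ?_
  exfalso
  obtain ⟨h1, -⟩ := Finset.mem_filter.1 hv
  obtain ⟨h2, h3, h4⟩ := mem_wn.1 h1
  obtain ⟨⟨⟨h5, h6⟩, -⟩, -⟩ := IntB_mem.1 h2
  have h7 := an_nonneg v h5 h6
  have h8 := an_lt v h5 h6
  refine hθ ⟨?_, ?_⟩ <;> linarith

private theorem IntB_per : 0 ≤ 2 * Real.log al := by
  have h1 := an_nonneg (1, 0) (le_refl _) (le_refl _)
  have h2 := an_lt (1, 0) (le_refl _) (le_refl _)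
  linarith

theorem T_int (d : Dt) (ε : ℝ) (hε : 0 ≤ ε) (r : ℕ) (h1 : r ≤ d.R) (c : ℤ × ℤ)
    (hMR : 1 ≤ r → ∫ θ in (0 : ℝ)..(2 * Real.log al), ‖TX d.z (d.Xr r) θ d.h d.W c‖ ^ 2 ≤
      ε * ((d.P : ℝ) * r ^ 2 / (d.b * d.n ^ 2)) ^ 2) :
    Integrable (fun θ : ℝ => ‖TX d.z (d.Xr r) θ d.h d.W c‖ ^ 2) ∧
    ∫ θ : ℝ, ‖TX d.z (d.Xr r) θ d.h d.W c‖ ^ 2 ≤
      ε * ((d.P : ℝ) * d.S ^ 2 / d.b) ^ 2 + d.h * ((d.P : ℝ) * d.S ^ 2 / d.b + 1) ^ 2 := by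
  classical
  have hn : (0 : ℝ) < d.n := by exact_mod_cast d.n_pos
  have hb : (0 : ℝ) < d.b := by exact_mod_cast d.b_pos
  have hP : (0 : ℝ) ≤ d.P := Nat.cast_nonneg _
  have hY := d.Y_pos
  have hh := d.h_pos
  have hX0 : 0 ≤ d.Xr r := by
    unfold Dt.Xr
    positivity
  have hint : Integrable (fun θ : ℝ => ‖TX d.z (d.Xr r) θ d.h d.W c‖ ^ 2) := by
    have h2 := sq_int ((VV (d.Xr r)).filter (fun v => cls d.W v = c)) an (aa d.z) d.h hh.le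
    refine h2.congr (Filter.Eventually.of_forall fun θ => ?_)
    show _ = ‖TX d.z (d.Xr r) θ d.h d.W c‖ ^ 2
    rw [IntB_TX]
  refine ⟨hint, ?_⟩
  obtain ⟨f, hf⟩ : ∃ f : ℝ → ℝ, f = fun θ : ℝ => ‖TX d.z (d.Xr r) θ d.h d.W c‖ ^ 2 := ⟨_, rfl⟩
  have hfi : Integrable f := by rw [hf]; exact hint
  have hper := IntB_per
  have hsplit : ∫ θ : ℝ, f θ = (∫ θ in (-d.h)..0, f θ) + ∫ θ in (0 : ℝ)..(2 * Real.log al), f θ := by
    rw [intervalIntegral.integral_add_adjacent_intervals hfi.intervalIntegrable hfi.intervalIntegrable,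
      intervalIntegral.integral_of_le (by linarith)]
    refine (setIntegral_eq_integral_of_forall_compl_eq_zero fun θ hθ => ?_).symm
    rw [hf]
    show ‖TX d.z (d.Xr r) θ d.h d.W c‖ ^ 2 = 0
    rw [IntB_zero _ _ _ _ _ hθ, norm_zero, zero_pow (by norm_num)]
  have hSn : (r : ℝ) ≤ d.S * d.n := by
    have h4 : (r : ℝ) ≤ d.R := by exact_mod_cast h1
    refine h4.trans (le_of_eq ?_)
    unfold Dt.R Dt.S
    push_cast
    ring
  have hA : (d.P : ℝ) * r ^ 2 / (d.b * d.n ^ 2) ≤ (d.P : ℝ) * d.S ^ 2 / d.b := by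
    rw [div_le_div_iff₀ (by positivity) hb]
    have h4 : (r : ℝ) ^ 2 ≤ (d.S * d.n) ^ 2 := pow_le_pow_left₀ (Nat.cast_nonneg _) hSn 2
    calc (d.P : ℝ) * r ^ 2 * d.b ≤ (d.P : ℝ) * (d.S * d.n) ^ 2 * d.b := by gcongr
      _ = (d.P : ℝ) * d.S ^ 2 * (d.b * d.n ^ 2) := by ring
  have hA0 : 0 ≤ (d.P : ℝ) * r ^ 2 / (d.b * d.n ^ 2) := by positivity
  have hhX : d.h * d.Xr r = (d.P : ℝ) * r ^ 2 / (d.b * d.n ^ 2) := by
    unfold Dt.h Dt.Xr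
    field_simp
  have hfirst : ∫ θ in (-d.h)..0, f θ ≤ d.h * ((d.P : ℝ) * d.S ^ 2 / d.b + 1) ^ 2 := by
    have h2 : ∫ θ in (-d.h)..0, f θ ≤ ∫ _θ in (-d.h)..0, ((d.P : ℝ) * d.S ^ 2 / d.b + 1) ^ 2 := by
      refine intervalIntegral.integral_mono_on (by linarith) hfi.intervalIntegrable
        intervalIntegrable_const fun θ _ => ?_
      rw [hf]
      refine pow_le_pow_left₀ (norm_nonneg _) ?_ 2
      refine (IntB_card d.hz _ _ _ _ _ hh.le hX0).trans ?_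
      rw [hhX]
      linarith
    refine h2.trans (le_of_eq ?_)
    rw [intervalIntegral.integral_const, smul_eq_mul]
    ring
  have hsecond : ∫ θ in (0 : ℝ)..(2 * Real.log al), f θ ≤ ε * ((d.P : ℝ) * d.S ^ 2 / d.b) ^ 2 := by
    by_cases hr : 1 ≤ r
    · have h2 := hMR hr
      rw [hf]
      refine h2.trans (mul_le_mul_of_nonneg_left ?_ hε)
      exact pow_le_pow_left₀ hA0 hA 2
    · have hr0 : r = 0 := by omega
      have h3 : ∀ θ, f θ = 0 := by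
        intro θ
        rw [hf]
        show ‖TX d.z (d.Xr r) θ d.h d.W c‖ ^ 2 = 0
        have h4 : TX d.z (d.Xr r) θ d.h d.W c = 0 := by
          unfold TX
          refine Finset.sum_eq_zero fun v hv => ?_
          exfalso
          obtain ⟨h5, -⟩ := Finset.mem_filter.1 hv
          obtain ⟨⟨⟨h7, h8⟩, -⟩, h9⟩ := IntB_mem.1 (mem_wn.1 h5).1
          have h10 := nm_ge_one v h7 h8
          have h11 : d.Xr r = 0 := by
            unfold Dt.Xr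
            rw [hr0]
            simp
          rw [h11] at h9
          linarith
        rw [h4, norm_zero, zero_pow (by norm_num)]
      rw [intervalIntegral.integral_congr (g := fun _ => (0 : ℝ)) (fun θ _ => h3 θ), intervalIntegral.integral_zero]
      positivity
  have hfin : ∫ θ : ℝ, f θ ≤ ε * ((d.P : ℝ) * d.S ^ 2 / d.b) ^ 2 + d.h * ((d.P : ℝ) * d.S ^ 2 / d.b + 1) ^ 2 := by
    rw [hsplit]
    linarith
  rw [hf] at hfin
  exact hfin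

theorem Vt_int (d : Dt) (ε : ℝ) (hε : 0 ≤ ε)
    (hMR : ∀ r : ℕ, 1 ≤ r → r ≤ d.R → ∀ c : ℤ × ℤ,
      ∫ θ in (0 : ℝ)..(2 * Real.log al), ‖TX d.z (d.Xr r) θ d.h d.W c‖ ^ 2 ≤
        ε * ((d.P : ℝ) * r ^ 2 / (d.b * d.n ^ 2)) ^ 2) :
    Integrable d.Vt ∧ ∫ θ : ℝ, d.Vt θ ≤ d.Mt ε := by
  classical
  have hh := d.h_pos
  obtain ⟨M, hM⟩ : ∃ M : ℝ, M = ε * ((d.P : ℝ) * d.S ^ 2 / d.b) ^ 2 + d.h * ((d.P : ℝ) * d.S ^ 2 / d.b + 1) ^ 2 :=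
    ⟨_, rfl⟩
  have hU : ∀ r c, Integrable (fun θ : ℝ => ‖d.U θ r c‖ ^ 2) := by
    intro r c
    have h2 := sq_int (d.VS.filter (fun v => d.rr v = r ∧ cls d.W v = c)) an (aa d.z) d.h hh.le
    refine h2.congr (Filter.Eventually.of_forall fun θ => ?_)
    show _ = ‖d.U θ r c‖ ^ 2
    have h3 : d.U θ r c = ∑ v ∈ (d.VS.filter (fun v => d.rr v = r ∧ cls d.W v = c)).filter
        (fun v => θ ≤ an v ∧ an v < θ + d.h), aa d.z v := by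
      unfold Dt.U Dt.wd Dt.VS wn
      rw [Finset.filter_filter, Finset.filter_filter]
      refine Finset.sum_congr (Finset.filter_congr fun v _ => ?_) fun _ _ => rfl
      exact and_comm
    rw [h3]
  have hUb : ∀ r ∈ Icc 1 d.R, ∀ c ∈ d.cs, ∫ θ : ℝ, ‖d.U θ r c‖ ^ 2 ≤ 4 * M := by
    intro r hr c _
    obtain ⟨hr1, hr2⟩ := Finset.mem_Icc.1 hr
    obtain ⟨i1, b1⟩ := T_int d ε hε r hr2 c (fun h => hMR r h hr2 c)
    obtain ⟨i2, b2⟩ := T_int d ε hε (r - 1) (by omega) c (fun h => hMR (r - 1) h (by omega) c)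
    rw [← hM] at b1 b2
    have h2 : ∫ θ : ℝ, ‖d.U θ r c‖ ^ 2 ≤ ∫ θ : ℝ, (2 * ‖TX d.z (d.Xr r) θ d.h d.W c‖ ^ 2 +
        2 * ‖TX d.z (d.Xr (r - 1)) θ d.h d.W c‖ ^ 2) := by
      refine integral_mono (hU r c) ((i1.const_mul 2).add (i2.const_mul 2)) fun θ => ?_
      show ‖d.U θ r c‖ ^ 2 ≤ 2 * ‖TX d.z (d.Xr r) θ d.h d.W c‖ ^ 2 + 2 * ‖TX d.z (d.Xr (r - 1)) θ d.h d.W c‖ ^ 2
      rw [U_TX d θ r hr1 hr2 c]
      have h3 := norm_sub_le (TX d.z (d.Xr r) θ d.h d.W c) (TX d.z (d.Xr (r - 1)) θ d.h d.W c)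
      have h4 := pow_le_pow_left₀ (norm_nonneg _) h3 2
      nlinarith [sq_nonneg (‖TX d.z (d.Xr r) θ d.h d.W c‖ - ‖TX d.z (d.Xr (r - 1)) θ d.h d.W c‖)]
    rw [integral_add (i1.const_mul 2) (i2.const_mul 2), integral_const_mul, integral_const_mul] at h2
    linarith
  have hI : Integrable d.Vt := by
    unfold Dt.Vt
    exact integrable_finset_sum _ fun r _ => integrable_finset_sum _ fun c _ => hU r c
  refine ⟨hI, ?_⟩
  have h2 : ∫ θ : ℝ, d.Vt θ = ∑ r ∈ Icc 1 d.R, ∑ c ∈ d.cs, ∫ θ : ℝ, ‖d.U θ r c‖ ^ 2 := by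
    unfold Dt.Vt
    rw [integral_finset_sum _ fun r _ => integrable_finset_sum _ fun c _ => hU r c]
    refine Finset.sum_congr rfl fun r _ => ?_
    exact integral_finset_sum _ fun c _ => hU r c
  rw [h2]
  refine (Finset.sum_le_sum fun r hr => Finset.sum_le_sum fun c hc => hUb r hr c hc).trans (le_of_eq ?_)
  rw [Finset.sum_const, Finset.sum_const, smul_smul, nsmul_eq_mul, Nat.card_Icc]
  unfold Dt.cs Dt.Mt
  rw [Finset.card_product, Int.card_Ico, ← hM]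
  have h3 : ((d.W : ℤ) - 0).toNat = d.W := by simp
  rw [h3]
  have h4 : d.R + 1 - 1 = d.R := by omega
  rw [h4]
  push_cast
  ring

end Pool.Agent.Lib.MP_d57abb_nt.GA.MS
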