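import Mathlib
import Pool.Agent.Lib.MP_d57abb_nt.GA.MS.Phi
import Pool.Agent.Lib.MP_d57abb_nt.GA.MS.IntB
import Pool.Agent.Lib.MP_d57abb_nt.GA.MS.Er

/-!
# the bound of the sum over `VS × VS`

`int_main` with `S = VS × VS`, `a x = an x.1`, `V = Vt`, `C = B R W²/Y²`, `M = Mt ε`: the filter `θ ≤ an x.1 < θ + h` of `VS ×ˢ VS` is `wd θ ×ˢ VS` (`mem_wn`; `VS = VV ((S Y)²)`, `wd θ = wn ((S Y)²) θ h`), so `H` is `phi_bound`; `Vt_int`.  It gives `h ‖∑ K‖ ≤ h ∑ er + (B R W²/Y²) 2 Lm Mt`; divide by `h = P/(b Y²)`: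
`‖∑ K‖ ≤ ∑ er + 2 B R W² Lm (b/P) Mt`, and `Mt = R W² 4 (ε (P S²/b)² + h (P S²/b + 1)²)`, `(b/P) (P S²/b)² = P S⁴/b`, `(b/P) h = 1/Y²`: `= ∑ er + 8 B R² W⁴ Lm (ε P S⁴/b + (P S²/b + 1)²/Y²)`.  `er_sum`.
-/

open Finset

namespace Pool.Agent.Lib.MP_d57abb_nt.GA.MS

variable [Pool.Agent.Lib.MP_d57abb_nt.GA.TA.Lab]

open Pool.Agent.Lib.MP_d57abb_nt Pool.Agent.Lib.MP_d57abb_nt.GA.TA

theorem core (d : Dt) (ε : ℝ) (hε : 0 ≤ ε)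
    (hMR : ∀ r : ℕ, 1 ≤ r → r ≤ d.R → ∀ c : ℤ × ℤ,
      ∫ θ in (0 : ℝ)..(2 * Real.log al), ‖TX d.z (d.Xr r) θ d.h d.W c‖ ^ 2 ≤
        ε * ((d.P : ℝ) * r ^ 2 / (d.b * d.n ^ 2)) ^ 2) :
    ‖∑ x ∈ d.VS ×ˢ d.VS, d.K x‖ ≤
      2 ^ (3 * d.k + 24) * (d.B + d.L) * ((d.P : ℝ) / d.n + (d.P : ℝ) / d.b + 1) +
      8 * d.B * (d.R : ℝ) ^ 2 * (d.W : ℝ) ^ 4 * d.Lm *
        (ε * d.P * d.S ^ 4 / d.b + ((d.P : ℝ) * d.S ^ 2 / d.b + 1) ^ 2 / d.Y ^ 2) := by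
  classical
  obtain ⟨hVi, hVM⟩ := Vt_int d ε hε hMR
  have hh := d.h_pos
  have hYp := d.Y_pos
  have hB : 0 ≤ d.B := le_trans zero_le_one d.B1
  have hb : (0 : ℝ) < d.b := by exact_mod_cast d.b_pos
  have hP : (0 : ℝ) < d.P := by
    have := d.hP
    exact_mod_cast (by omega : 0 < d.P)
  have hC : 0 ≤ d.B * d.R * (d.W : ℝ) ^ 2 / d.Y ^ 2 := by positivity
  have H := int_main (d.VS ×ˢ d.VS) (fun x => an x.1) d.K d.er d.h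
    (d.B * d.R * (d.W : ℝ) ^ 2 / d.Y ^ 2) (d.Mt ε) hh.le hC d.Vt hVi hVM d.Lm (by
      intro θ
      have hW : (d.VS ×ˢ d.VS).filter (fun x => θ ≤ an x.1 ∧ an x.1 < θ + d.h) = d.wd θ ×ˢ d.VS := by
        ext x
        simp only [mem_filter, mem_product, Dt.wd, Dt.VS, mem_wn]
        tauto
      rw [hW]
      exact phi_bound d θ)
  have her := er_sum d
  have e1 : d.B * d.R * (d.W : ℝ) ^ 2 / d.Y ^ 2 * (2 * d.Lm * d.Mt ε) =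
      d.h * (8 * d.B * (d.R : ℝ) ^ 2 * (d.W : ℝ) ^ 4 * d.Lm *
        (ε * d.P * d.S ^ 4 / d.b + ((d.P : ℝ) * d.S ^ 2 / d.b + 1) ^ 2 / d.Y ^ 2)) := by
    unfold Dt.Mt Dt.h
    field_simp
    ring
  rw [e1, ← mul_add] at H
  have H2 := le_of_mul_le_mul_left H hh
  linarith

end Pool.Agent.Lib.MP_d57abb_nt.GA.MS
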