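import Mathlib
import Pool.Agent.Lib.MP_d57abb_nt.GA.MS.Core
import Pool.Agent.Lib.MP_d57abb_nt.GA.MS.Red
import Pool.Agent.Lib.MP_d57abb_nt.KT.CntN

/-!
# choice of the parameters

`k = g₀ - 1` (truncated subtraction), so `g₀ ≤ k + 1`, `2^g₀ ≤ 2^(k+1)` and `k + 5 ≤ γ` (`hγ`, `hγ5`).  `B = (1 + Lg) B₀ + 1`, `L = L₀`: `|Wh| ≤ B₀ ≤ B`, `|gm s - gm t| |Wh x y| ≤ Lg |s - t| B₀ ≤ B |s - t|`.
`‖z‖ = 1` from `z ^ q = 1` (`q ≥ 1`).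
Let `C₁ = 2^(3k+24) (B + L)`.  Choose `n = b ≥ 2^(2k+13)` with `C₁ (2/n) ≤ ε/(32 W)`; then `R = 2^(k+2) n`, `Lm = 2^(k+5) b + 2`, `S = 2^(k+2)` are fixed; choose `ε₁ > 0` with `8 B R² W⁴ Lm ε₁ S⁴/b ≤ ε/(32 W)`; `A₀` from `MRp z` for `W, ε₁`.  Choose `P₁ ≥ 8` such that for `P ≥ P₁`: `P/(b n²) ≥ A₀`, `C₁ ≤ ε P/(32 W)`, and
`#NN W P ≥ P φ(W)/(8 W) ≥ P/(8 W)` (`KT.NN_lower`).  `ρ₁`: for `ρ ≥ ρ₁`, `P = PP e ρ = 2^(2ρ - e) ≥ P₁` (`2 ρ - e → ∞`).  For such a `ρ` and each `r ∈ [1, R]` let `A_r = P r²/(b n²) ≥ A₀`, `X₀(r)` from `MRp`; choose `j₁` such that for `j ≥ j₁`, `Y = 2^j`: `(Y/n)² ≥ max_r X₀(r)` (so `Xr r = (r Y/n)² ≥ X₀(r)`;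
`A_r/Xr r = P/(b Y²) = h`), `hY` holds, and `8 B R² W⁴ Lm (P S²/b + 1)²/Y² ≤ ε P/(32 W)`.  Then by `red` and `core` the sum is `≤ C₁ (P/n + P/b) + C₁ + ε P/(32 W) + ε P/(32 W) ≤ 4 ε P/(32 W) = ε P/(8 W) ≤ ε #NN`.
(A finite maximum over `r ∈ Icc 1 R`: `Finset.exists_le`-like or `Finset.sup'`, or filters: `Filter.eventually_all_finset`.)
-/

open Finset

namespace Pool.Agent.Lib.MP_d57abb_nt.GA.MS

variable [Pool.Agent.Lib.MP_d57abb_nt.GA.TA.Lab]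

open Pool.Agent.Lib.MP_d57abb_nt Pool.Agent.Lib.MP_d57abb_nt.GA.TA

theorem model_small_gen {q : ℕ} (hq : 1 ≤ q) {z : ℂ} (hz : z ^ q = 1) (hMR : MRp z) {gm : ℝ → ℝ} {Wh : ℝ → ℝ → ℝ}
    {B₀ L₀ Lg : ℝ} {g₀ : ℕ} (hB₀ : 0 ≤ B₀) (hL₀ : 0 ≤ L₀) (hLg : 0 ≤ Lg)
    (hg0 : ∀ x, 0 ≤ gm x) (hg1 : ∀ x, gm x ≤ 1) (hgL : ∀ x y, |gm x - gm y| ≤ Lg * |x - y|)
    (hW0 : ∀ x y, 0 ≤ Wh x y) (hW1 : ∀ x y, Wh x y ≤ B₀)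
    (hWL : ∀ x y x' y', |Wh x y - Wh x' y'| ≤ L₀ * (|x - x'| + |y - y'|))
    (hWS : ∀ x y, Wh x y ≠ 0 → (1 / 2 ≤ x ∧ x ≤ 2) ∧ (1 / 2 ^ g₀ ≤ y ∧ y ≤ 2 ^ g₀))
    {γ : ℕ} (hγ : g₀ + 4 ≤ γ) (hγ5 : 5 ≤ γ) {W : ℕ} (hW : 0 < W) (e : ℕ) {ε : ℝ} (hε : 0 < ε) :
    ∃ ρ₁ : ℕ, ∀ ρ : ℕ, ρ₁ ≤ ρ → ∃ j₁ : ℕ, ∀ j : ℕ, j₁ ≤ j → ∀ b lo hi : ℕ, PP e ρ / 2 ≤ lo → hi ≤ PP e ρ →
      ‖∑ m ∈ NC W b lo hi, Bm (fun v => gm (mu1 v)) Wh z γ j m‖ ≤ ε * PP e ρ := by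
  obtain ⟨k, hk⟩ : ∃ k : ℕ, k = g₀ - 1 := ⟨_, rfl⟩
  have hγ' : k + 5 ≤ γ := by omega
  have hWS' : ∀ x y, Wh x y ≠ 0 → (1 / 2 ≤ x ∧ x ≤ 2) ∧ (1 / 2 ^ (k + 1) ≤ y ∧ y ≤ 2 ^ (k + 1)) := by
    intro x y hxy
    obtain ⟨a1, a2, a3⟩ := hWS x y hxy
    have h1 : (2 : ℝ) ^ g₀ ≤ 2 ^ (k + 1) := pow_le_pow_right₀ (by norm_num) (by omega)
    have h2 : (0 : ℝ) < 2 ^ g₀ := pow_pos two_pos _
    exact ⟨a1, (one_div_le_one_div_of_le h2 h1).trans a2, a3.trans h1⟩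
  have hz1 : ‖z‖ = 1 := Complex.norm_eq_one_of_pow_eq_one hz (by omega)
  have hWR : (0 : ℝ) < W := by exact_mod_cast hW
  obtain ⟨B, hB⟩ : ∃ B : ℝ, B = (1 + Lg) * B₀ + 1 := ⟨_, rfl⟩
  have hLB : 0 ≤ Lg * B₀ := mul_nonneg hLg hB₀
  have hB1 : 1 ≤ B := by rw [hB]; nlinarith
  have hB2 : B₀ ≤ B := by rw [hB]; nlinarith
  have hB3 : Lg * B₀ ≤ B := by rw [hB]; nlinarith
  obtain ⟨E, hE⟩ : ∃ E : ℝ, E = ε / (32 * W) := ⟨_, rfl⟩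
  have hE0 : 0 < E := by
    rw [hE]
    exact div_pos hε (mul_pos (by norm_num) hWR)
  obtain ⟨C₁, hC₁⟩ : ∃ C₁ : ℝ, C₁ = 2 ^ (3 * k + 24) * (B + L₀) := ⟨_, rfl⟩
  have hC0 : 0 < C₁ := by
    rw [hC₁]
    have h0 : 0 < B + L₀ := by linarith
    exact mul_pos (pow_pos two_pos _) h0
  obtain ⟨n, hn⟩ : ∃ n : ℕ, n = max (2 ^ (2 * k + 13)) ⌈2 * C₁ / E⌉₊ := ⟨_, rfl⟩
  have hn1 : 2 ^ (2 * k + 13) ≤ n := by rw [hn]; exact le_max_left _ _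
  have hn2 : 2 * C₁ / E ≤ (n : ℝ) := by
    refine (Nat.le_ceil _).trans ?_
    rw [hn]
    exact_mod_cast le_max_right _ _
  have hn3 : 0 < n := lt_of_lt_of_le (pow_pos two_pos _) hn1
  have hnR : (0 : ℝ) < n := by exact_mod_cast hn3
  have hCn : C₁ * (2 / n) ≤ E := by
    rw [div_le_iff₀ hE0] at hn2
    rw [mul_div_assoc', div_le_iff₀ hnR]
    linarith
  obtain ⟨S, hS⟩ : ∃ S : ℝ, S = 2 ^ (k + 2) := ⟨_, rfl⟩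
  have hS0 : 0 < S := by
    rw [hS]
    exact pow_pos two_pos _
  obtain ⟨R, hR⟩ : ∃ R : ℕ, R = 2 ^ (k + 2) * n := ⟨_, rfl⟩
  obtain ⟨Lm, hLm⟩ : ∃ Lm : ℕ, Lm = 2 ^ (k + 5) * n + 2 := ⟨_, rfl⟩
  have hR0 : 0 < R := by
    rw [hR]
    exact Nat.mul_pos (pow_pos two_pos _) hn3
  have hRR : (0 : ℝ) < R := by exact_mod_cast hR0
  have hLR : (0 : ℝ) < Lm := by
    have : 0 < Lm := by omega
    exact_mod_cast this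
  have hB0' : 0 < B := by linarith
  obtain ⟨M0, hM0⟩ : ∃ M0 : ℝ, M0 = 8 * B * (R : ℝ) ^ 2 * (W : ℝ) ^ 4 * Lm := ⟨_, rfl⟩
  have hM00 : 0 < M0 := by
    rw [hM0]
    exact mul_pos (mul_pos (mul_pos (mul_pos (by norm_num) hB0') (pow_pos hRR 2)) (pow_pos hWR 4)) hLR
  obtain ⟨M1, hM1⟩ : ∃ M1 : ℝ, M1 = M0 * S ^ 4 / n := ⟨_, rfl⟩
  have hM10 : 0 < M1 := by
    rw [hM1]
    exact div_pos (mul_pos hM00 (pow_pos hS0 4)) hnR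
  obtain ⟨ε₁, hε₁⟩ : ∃ ε₁ : ℝ, ε₁ = E / M1 := ⟨_, rfl⟩
  have hε₁0 : 0 < ε₁ := by
    rw [hε₁]
    exact div_pos hE0 hM10
  obtain ⟨A₀, hA₀⟩ := hMR W hW ε₁ hε₁0
  obtain ⟨P₁, hP₁⟩ : ∃ P₁ : ℕ, P₁ = 8 + ⌈A₀ * n ^ 3⌉₊ + ⌈C₁ / E⌉₊ := ⟨_, rfl⟩
  refine ⟨P₁ + e, fun ρ hρ => ?_⟩
  obtain ⟨P, hP⟩ : ∃ P : ℕ, P = PP e ρ := ⟨_, rfl⟩
  rw [← hP]
  have hPP₁ : P₁ ≤ P := by
    rw [hP]
    unfold PP
    have h1 : P₁ ≤ 2 * ρ - e := by omega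
    exact h1.trans Nat.lt_two_pow_self.le
  have hP8 : 8 ≤ P := by omega
  have hPR : (0 : ℝ) < P := by
    have : 0 < P := by omega
    exact_mod_cast this
  have hPA : A₀ * n ^ 3 ≤ P := by
    refine (Nat.le_ceil _).trans ?_
    exact_mod_cast (by omega : ⌈A₀ * n ^ 3⌉₊ ≤ P)
  have hPC : C₁ ≤ E * P := by
    have h1 : C₁ / E ≤ P := by
      refine (Nat.le_ceil _).trans ?_
      exact_mod_cast (by omega : ⌈C₁ / E⌉₊ ≤ P)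
    rw [div_le_iff₀ hE0] at h1
    linarith
  -- the norms of the size classes
  have hX : ∀ r : ℕ, 1 ≤ r → ∃ X₀ : ℝ, ∀ X : ℝ, X₀ ≤ X → ∀ c : ℤ × ℤ,
      ∫ θ in (0 : ℝ)..(2 * Real.log al), ‖TX z X θ ((P : ℝ) * r ^ 2 / (n * n ^ 2) / X) W c‖ ^ 2 ≤
        ε₁ * ((P : ℝ) * r ^ 2 / (n * n ^ 2)) ^ 2 := by
    intro r hr
    refine hA₀ _ ?_
    rw [le_div_iff₀ (mul_pos hnR (pow_pos hnR 2))]
    have h1 : (1 : ℝ) ≤ (r : ℝ) ^ 2 := one_le_pow₀ (by exact_mod_cast hr)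
    calc A₀ * ((n : ℝ) * n ^ 2) = A₀ * n ^ 3 := by ring
      _ ≤ (P : ℝ) := hPA
      _ ≤ (P : ℝ) * r ^ 2 := le_mul_of_one_le_right hPR.le h1
  choose! X₀ hX₀ using hX
  obtain ⟨Xm, hXm⟩ : ∃ Xm : ℝ, Xm = ∑ r ∈ Icc 1 R, |X₀ r| := ⟨_, rfl⟩
  have hXm0 : 0 ≤ Xm := by
    rw [hXm]
    exact Finset.sum_nonneg fun _ _ => abs_nonneg _
  obtain ⟨M2, hM2⟩ : ∃ M2 : ℝ, M2 = M0 * ((P : ℝ) * S ^ 2 / n + 1) ^ 2 := ⟨_, rfl⟩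
  have hM20 : 0 < M2 := by
    rw [hM2]
    exact mul_pos hM00 (pow_pos (add_pos (div_pos (mul_pos hPR (pow_pos hS0 2)) hnR) one_pos) 2)
  obtain ⟨Y₀, hY₀⟩ : ∃ Y₀ : ℝ, Y₀ = n * (1 + Xm) + 2 ^ (5 * k + 30) * n * n * (P : ℝ) ^ 3 + M2 / (E * P) + 1 :=
    ⟨_, rfl⟩
  refine ⟨⌈Y₀⌉₊, fun j hj bb lo hi hlo hhi => ?_⟩
  obtain ⟨Y, hY⟩ : ∃ Y : ℝ, Y = 2 ^ j := ⟨_, rfl⟩
  have hYY : Y₀ ≤ Y := by
    refine (Nat.le_ceil _).trans ?_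
    have h1 : ⌈Y₀⌉₊ ≤ 2 ^ j := hj.trans Nat.lt_two_pow_self.le
    rw [hY]
    exact_mod_cast h1
  have t1 : 0 ≤ (n : ℝ) * (1 + Xm) := mul_nonneg hnR.le (by linarith)
  have t2 : 0 ≤ (2 : ℝ) ^ (5 * k + 30) * n * n * (P : ℝ) ^ 3 :=
    mul_nonneg (mul_nonneg (mul_nonneg (pow_nonneg two_pos.le _) hnR.le) hnR.le) (pow_nonneg hPR.le 3)
  have t3 : 0 ≤ M2 / (E * P) := div_nonneg hM20.le (mul_pos hE0 hPR).le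
  have hY1 : 1 ≤ Y := by linarith
  have hY0 : 0 < Y := by linarith
  have y1 : (n : ℝ) * (1 + Xm) ≤ Y := by linarith
  have y2 : (2 : ℝ) ^ (5 * k + 30) * n * n * (P : ℝ) ^ 3 ≤ Y := by linarith
  have y3 : M2 / (E * P) ≤ Y := by linarith
  let d : Dt := {
    gm := gm, Wh := Wh, k := k, B := B, L := L₀, z := z, W := W, n := n, b := n, P := P, Y := Y
    B1 := hB1, L0 := hL₀, hz := hz1, W0 := hW, bb := bb, lo := lo, hi := hi, hlo := hlo, hhi := hhi, g0 := hg0, g1 := hg1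
    wB := fun x y => by
      rw [abs_of_nonneg (hW0 x y)]
      exact (hW1 x y).trans hB2
    wG := fun x y s t => by
      have e1 : |Wh x y| ≤ B₀ := by
        rw [abs_of_nonneg (hW0 x y)]
        exact hW1 x y
      calc |gm s - gm t| * |Wh x y| ≤ (Lg * |s - t|) * B₀ :=
            mul_le_mul (hgL s t) e1 (abs_nonneg _) (mul_nonneg hLg (abs_nonneg _))
        _ = Lg * B₀ * |s - t| := by ring
        _ ≤ B * |s - t| := mul_le_mul_of_nonneg_right hB3 (abs_nonneg _)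
    wL := hWL
    wS := hWS'
    hn := hn1, hb := hn1, hP := hP8
    hY := y2 }
  have hdS : d.S = S := hS.symm
  have hdR : d.R = R := hR.symm
  have hdL : d.Lm = Lm := hLm.symm
  have hred := red d γ j hγ' hY
  have hcore := core d ε₁ hε₁0.le (by
    intro r hr1 hr2 c
    have hr0 : (1 : ℝ) ≤ r := by exact_mod_cast hr1
    have h1 : d.Xr r = ((r : ℝ) * Y / n) ^ 2 := rfl
    have h2 : X₀ r ≤ d.Xr r := by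
      have h3 : |X₀ r| ≤ Xm := by
        rw [hXm]
        exact Finset.single_le_sum (f := fun r => |X₀ r|) (fun _ _ => abs_nonneg _)
          (Finset.mem_Icc.2 ⟨hr1, hdR ▸ hr2⟩)
      have h4 : 1 + Xm ≤ (r : ℝ) * Y / n := by
        rw [le_div_iff₀ hnR]
        calc (1 + Xm) * n = n * (1 + Xm) := by ring
          _ ≤ Y := y1
          _ ≤ (r : ℝ) * Y := le_mul_of_one_le_left hY0.le hr0
      have h5 : (1 + Xm) ^ 2 ≤ ((r : ℝ) * Y / n) ^ 2 := pow_le_pow_left₀ (by linarith) h4 2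
      rw [h1]
      refine le_trans ?_ h5
      have h6 : X₀ r ≤ 1 + Xm := (le_abs_self (X₀ r)).trans (h3.trans (by linarith))
      exact h6.trans (le_self_pow₀ (by linarith) (by norm_num))
    have h6 := hX₀ r hr1 (d.Xr r) h2 c
    have h7 : (P : ℝ) * r ^ 2 / (n * n ^ 2) / d.Xr r = d.h := by
      rw [h1]
      show (P : ℝ) * r ^ 2 / (n * n ^ 2) / ((r : ℝ) * Y / n) ^ 2 = (P : ℝ) / (n * Y ^ 2)
      have : (r : ℝ) ≠ 0 := by linarith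
      field_simp
    rw [h7] at h6
    exact h6)
  rw [← hred, hdS, hdR, hdL] at hcore
  refine le_trans hcore ?_
  show 2 ^ (3 * k + 24) * (B + L₀) * ((P : ℝ) / n + (P : ℝ) / n + 1) +
      8 * B * (R : ℝ) ^ 2 * (W : ℝ) ^ 4 * Lm * (ε₁ * P * S ^ 4 / n + ((P : ℝ) * S ^ 2 / n + 1) ^ 2 / Y ^ 2) ≤
    ε * P
  rw [← hC₁, ← hM0]
  have q1 : C₁ * ((P : ℝ) / n + (P : ℝ) / n + 1) ≤ E * P + E * P := by
    have h1 : C₁ * ((P : ℝ) / n + (P : ℝ) / n + 1) = C₁ * (2 / n) * P + C₁ := by ring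
    rw [h1]
    exact add_le_add (mul_le_mul_of_nonneg_right hCn hPR.le) hPC
  have q2 : M0 * (ε₁ * P * S ^ 4 / n) = E * P := by
    have h1 : M0 * (ε₁ * P * S ^ 4 / n) = M1 * ε₁ * P := by
      rw [hM1]
      ring
    rw [h1, hε₁]
    field_simp
  have q3 : M0 * (((P : ℝ) * S ^ 2 / n + 1) ^ 2 / Y ^ 2) ≤ E * P := by
    have h1 : M0 * (((P : ℝ) * S ^ 2 / n + 1) ^ 2 / Y ^ 2) = M2 / Y ^ 2 := by
      rw [hM2]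
      ring
    rw [h1, div_le_iff₀ (pow_pos hY0 2)]
    rw [div_le_iff₀ (mul_pos hE0 hPR)] at y3
    have h2 : Y ≤ Y ^ 2 := le_self_pow₀ hY1 (by norm_num)
    calc M2 ≤ Y * (E * P) := y3
      _ ≤ Y ^ 2 * (E * P) := mul_le_mul_of_nonneg_right h2 (mul_pos hE0 hPR).le
      _ = E * P * Y ^ 2 := by ring
  have hW1 : (1 : ℝ) ≤ W := by exact_mod_cast hW
  have q4 : 4 * (E * P) ≤ ε * P := by
    have h3 : 4 * (E * P) = ε * P / (8 * W) := by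
      rw [hE]
      field_simp
      norm_num
    rw [h3, div_le_iff₀ (by positivity)]
    have h4 : 0 ≤ ε * P := by positivity
    nlinarith
  rw [mul_add M0]
  linarith

end Pool.Agent.Lib.MP_d57abb_nt.GA.MS
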